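import Mathlib

set_option autoImplicit false

namespace Pool.Agent.H963Top

open Cardinal Order Set

/-- parameters for determined values -/
abbrev Par := Set ℕ × (ℕ → ℝ) × (ℕ → ℕ → ℝ)

/-- the value determined by a parameter and a list of reals -/
noncomputable def Ex (p : Par) (x : List ℝ) : ℝ :=
  sInf {y | ∃ t ∈ p.1, y = p.2.1 t ∧ ∀ i (h : i < x.length), p.2.2 t i < x[i]}

theorem mk_par : #Par = continuum := by
  simp [Par, Cardinal.mk_prod, Cardinal.mk_real]

theorem exists_index : ∃ (Θ : Type) (_ : LinearOrder Θ) (_ : WellFoundedLT Θ) (_ : Nonempty Θ)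
    (st : Par → Θ), (∀ α : Θ, #{p // st p ≤ α} < continuum) ∧ (∀ α : Θ, #(Iio α) < continuum) ∧
    (∀ T : Set Θ, T.Countable → ∃ x, ∀ t ∈ T, t < x) ∧
    (∀ g : Finset Θ → Θ, ∃ δ, ∀ R : Finset Θ, (∀ α ∈ R, α < δ) → g R ≤ δ) := by
  classical
  let X := (continuum.{0}).ord.ToType
  obtain ⟨S, hS, hS'⟩ := Ordinal.exists_ord_cof_eq X
  have hcof : ℵ₀ < Order.cof X := by
    have h1 := Cardinal.lt_cof_ord_power (a := ℵ₀) (b := 2) le_rfl (by norm_num)
    rw [Cardinal.two_power_aleph0] at h1
    simpa [X] using h1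
  have hcofS : Order.cof S = Order.cof X := cof_eq_of_isCofinal hS
  have hcardS : #S = Order.cof X := by
    have := congrArg Ordinal.card hS'
    simpa using this
  have hbd : ∀ T : Set S, #T < Order.cof X → ∃ x, ∀ t ∈ T, t < x := by
    intro T hT
    rw [← not_isCofinal_iff]
    intro h
    have := Order.cof_le h
    rw [hcofS] at this
    exact absurd this (not_le.2 hT)
  have hXne : Nonempty X := by
    by_contra h
    rw [not_nonempty_iff] at h
    have : Order.cof X = 0 := Order.cof_eq_zero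
    rw [this] at hcof
    exact absurd hcof (by simp)
  have hne : Nonempty S := by
    obtain ⟨x⟩ := hXne
    obtain ⟨y, hy, _⟩ := hS x
    exact ⟨⟨y, hy⟩⟩
  have hIioX : ∀ x : X, #(Iio x) < continuum := by
    intro x
    have := Cardinal.mk_Iio_lt (α := X) x (by simp [X])
    simpa [X] using this
  have hIicX : ∀ x : X, #(Iic x) < continuum := by
    intro x
    have : (Iic x) = insert x (Iio x) := by
      ext y; simp [le_iff_eq_or_lt]
    rw [this]
    refine lt_of_le_of_lt (mk_insert_le) ?_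
    refine Cardinal.add_lt_of_lt Cardinal.aleph0_le_continuum (hIioX x) ?_
    exact lt_of_lt_of_le Cardinal.one_lt_aleph0 Cardinal.aleph0_le_continuum
  have hIioS : ∀ α : S, #(Iio α) < Order.cof X := by
    intro α
    have h1 := Cardinal.mk_Iio_lt (α := S) α (by rw [hcardS]; exact hS'.symm)
    rwa [hcardS] at h1
  have hcofle : Order.cof X ≤ continuum := by
    refine (Order.cof_le_cardinalMk X).trans ?_
    simp [X]
  obtain ⟨e⟩ : Nonempty (Par ≃ X) := by
    rw [← Cardinal.eq, mk_par]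
    simp [X]
  have hst : ∀ p : Par, ∃ s : S, e p ≤ s := by
    intro p
    obtain ⟨y, hy, h⟩ := hS (e p)
    exact ⟨⟨y, hy⟩, h⟩
  refine ⟨S, inferInstance, inferInstance, hne,
    fun p => WellFounded.min (wellFounded_lt (α := S)) {s : S | e p ≤ s} (hst p), ?_, ?_, ?_, ?_⟩
  · intro α
    refine lt_of_le_of_lt ?_ (hIicX α.1)
    refine Cardinal.mk_le_of_injective (f := fun p => (⟨e p.1, ?_⟩ : Iic α.1)) ?_
    · have h1 : e p.1 ≤ (WellFounded.min (wellFounded_lt (α := S)) {s : S | e p.1 ≤ s} (hst p.1)).1 :=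
        WellFounded.min_mem (wellFounded_lt (α := S)) {s : S | e p.1 ≤ s} (hst p.1)
      exact le_trans h1 p.2
    · intro p q h
      exact Subtype.ext (e.injective (congrArg Subtype.val h))
  · intro α
    exact lt_of_lt_of_le (hIioS α) hcofle
  · intro T hT
    exact hbd T (lt_of_le_of_lt hT.le_aleph0 hcof)
  · intro g
    have step : ∀ δ : S, ∃ δ' : S, δ < δ' ∧ ∀ R : Finset S, (∀ α ∈ R, α < δ) → g R < δ' := by
      intro δ
      obtain ⟨x, hx⟩ := hbd ({δ} ∪ (g '' {R : Finset S | ∀ α ∈ R, α < δ})) (by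
        refine lt_of_le_of_lt (mk_union_le _ _) ?_
        refine Cardinal.add_lt_of_lt hcof.le ?_ ?_
        · simpa using lt_trans Cardinal.one_lt_aleph0 hcof
        · refine lt_of_le_of_lt mk_image_le ?_
          have : #{R : Finset S | ∀ α ∈ R, α < δ} ≤ #(Finset (Iio δ)) := by
            refine Cardinal.mk_le_of_injective (f := fun R => R.1.subtype (· ∈ Iio δ)) ?_
            intro R R' h
            ext a
            have h' := congrArg (fun F => Finset.map (Function.Embedding.subtype _) F) h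
            simp only [Finset.subtype_map] at h'
            have e1 : R.1.filter (· ∈ Iio δ) = R.1 := Finset.filter_true_of_mem (fun a ha => R.2 a ha)
            have e2 : R'.1.filter (· ∈ Iio δ) = R'.1 := Finset.filter_true_of_mem (fun a ha => R'.2 a ha)
            rw [e1, e2] at h'
            rw [h']
          refine lt_of_le_of_lt this ?_
          rcases finite_or_infinite (Iio δ) with hf | hf
          · exact lt_of_lt_of_le (Cardinal.lt_aleph0_of_finite _) hcof.le
          · rw [Cardinal.mk_finset_of_infinite]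
            exact hIioS δ)
      exact ⟨x, hx δ (by simp), fun R hR => hx _ (Or.inr ⟨R, hR, rfl⟩)⟩
    choose nx hnx1 hnx2 using step
    obtain ⟨δ0⟩ := hne
    let d : ℕ → S := fun n => Nat.rec δ0 (fun _ s => nx s) n
    have hd : ∀ n, d (n+1) = nx (d n) := fun n => rfl
    have hmono : StrictMono d := strictMono_nat_of_lt_succ (fun n => by rw [hd]; exact hnx1 _)
    have hub : ∃ x : S, ∀ n, d n ≤ x := by
      obtain ⟨x, hx⟩ := hbd (range d) (lt_of_le_of_lt (Set.countable_range d).le_aleph0 hcof)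
      exact ⟨x, fun n => (hx _ ⟨n, rfl⟩).le⟩
    let δ := WellFounded.min (wellFounded_lt (α := S)) {x : S | ∀ n, d n ≤ x} hub
    have hδ : ∀ n, d n ≤ δ := WellFounded.min_mem (wellFounded_lt (α := S)) {x : S | ∀ n, d n ≤ x} hub
    have hδ' : ∀ α < δ, ∃ n, α < d n := by
      intro α hα
      by_contra! h
      have h' : α ∈ {x : S | ∀ n, d n ≤ x} := by
        intro n
        have h2 := h n
        have h3 : ¬ (α.1 < (d n).1) := fun h4 => h2 h4
        exact le_of_not_gt h3
      exact WellFounded.not_lt_min (wellFounded_lt (α := S)) {x : S | ∀ n, d n ≤ x} h' hα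
    refine ⟨δ, fun R hR => ?_⟩
    have : ∃ n, ∀ α ∈ R, α < d n := by
      have : ∀ α : S, ∃ n, α < δ → α < d n := by
        intro α
        by_cases h : α < δ
        · obtain ⟨n, hn⟩ := hδ' α h
          exact ⟨n, fun _ => hn⟩
        · exact ⟨0, fun h' => absurd h' h⟩
      choose f hf using this
      refine ⟨R.sup f, fun α hα => ?_⟩
      exact lt_of_lt_of_le (hf α (hR α hα)) (hmono.monotone (Finset.le_sup hα))
    obtain ⟨n, hn⟩ := this
    exact (hnx2 _ R hn).le.trans (hδ (n+1))

section generic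

variable {Θ : Type} [LinearOrder Θ] [WellFoundedLT Θ] (st : Par → Θ)

/-- the set of reals excluded at stage `(α, k)`, given the set `E` of earlier reals -/
def Excl (α : Θ) (E : Set ℝ) : Set ℝ :=
  {y | ∃ p : Par, st p ≤ α ∧ ∃ x : List ℝ, (∀ z ∈ x, z ∈ E ∨ -z ∈ E) ∧ (y = Ex p x ∨ y = - Ex p x)}
    ∪ E ∪ Set.range (fun q : ℚ => (q : ℝ))

omit [WellFoundedLT Θ] in
theorem mk_excl (hst : ∀ α : Θ, #{p // st p ≤ α} < continuum) (α : Θ) (E : Set ℝ)
    (hE : #E < continuum) : #(Excl st α E) < continuum := by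
  have hc := Cardinal.aleph0_le_continuum.{0}
  have hlist : #(List {z : ℝ | z ∈ E ∨ -z ∈ E}) < continuum := by
    have h1 : #{z : ℝ | z ∈ E ∨ -z ∈ E} < continuum := by
      have : {z : ℝ | z ∈ E ∨ -z ∈ E} = E ∪ (fun z => -z) '' E := by
        ext z; simp
      rw [this]
      refine lt_of_le_of_lt (mk_union_le _ _) (Cardinal.add_lt_of_lt hc hE ?_)
      exact lt_of_le_of_lt mk_image_le hE
    refine lt_of_le_of_lt (Cardinal.mk_list_le_max _) ?_
    exact max_lt Cardinal.aleph0_lt_continuum h1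
  unfold Excl
  refine lt_of_le_of_lt (mk_union_le _ _) (Cardinal.add_lt_of_lt hc ?_ ?_)
  · refine lt_of_le_of_lt (mk_union_le _ _) (Cardinal.add_lt_of_lt hc ?_ hE)
    have : {y | ∃ p : Par, st p ≤ α ∧ ∃ x : List ℝ, (∀ z ∈ x, z ∈ E ∨ -z ∈ E) ∧
        (y = Ex p x ∨ y = - Ex p x)} ⊆ Set.range (fun (t : Bool × {p // st p ≤ α} ×
          List {z : ℝ | z ∈ E ∨ -z ∈ E}) =>
            if t.1 then Ex t.2.1.1 (t.2.2.map Subtype.val) else - Ex t.2.1.1 (t.2.2.map Subtype.val)) := by
      rintro y ⟨p, hp, x, hx, hy⟩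
      have hx' : ∃ x' : List {z : ℝ | z ∈ E ∨ -z ∈ E}, x'.map Subtype.val = x := by
        refine ⟨x.pmap (fun z hz => ⟨z, hz⟩) hx, ?_⟩
        rw [List.map_pmap]
        simp
        exact List.pmap_eq_self.2 (fun a h => rfl)
      obtain ⟨x', rfl⟩ := hx'
      rcases hy with rfl | rfl
      · exact ⟨(true, ⟨p, hp⟩, x'), by simp⟩
      · exact ⟨(false, ⟨p, hp⟩, x'), by simp⟩
    refine lt_of_le_of_lt (Cardinal.mk_le_mk_of_subset this) ?_
    refine lt_of_le_of_lt Cardinal.mk_range_le ?_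
    simp only [Cardinal.mk_prod, Cardinal.lift_id]
    refine Cardinal.mul_lt_of_lt hc ?_ (Cardinal.mul_lt_of_lt hc (hst α) hlist)
    exact lt_of_lt_of_le (Cardinal.lt_aleph0_of_finite _) hc
  · refine lt_of_le_of_lt Cardinal.mk_range_le ?_
    exact lt_of_le_of_lt (Cardinal.mk_le_aleph0) Cardinal.aleph0_lt_continuum

theorem exists_generic (hst : ∀ α : Θ, #{p // st p ≤ α} < continuum)
    (hI : ∀ α : Θ, #(Iio α) < continuum) :
    ∃ r : Θ → ℕ → ℝ, (∀ α k, Irrational (r α k)) ∧
      (∀ α k β j, r α k = r β j → α = β ∧ k = j) ∧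
      (∀ α k (p : Par) (x : List ℝ), st p ≤ α →
        (∀ z ∈ x, ∃ β j, (β < α ∨ (β = α ∧ j < k)) ∧ (z = r β j ∨ z = - r β j)) →
        r α k ≠ Ex p x ∧ r α k ≠ - Ex p x) := by
  classical
  have hwf : WellFounded (fun a b : Θ ×ₗ ℕ => a < b) := wellFounded_lt
  have hcard : ∀ a : Θ ×ₗ ℕ, #(Iio a) < continuum := by
    intro a
    have h1 : #(Iio a) ≤ #((Iic (ofLex a).1) × ℕ) := by
      refine Cardinal.mk_le_of_injective (f := fun b => (⟨(ofLex b.1).1, ?_⟩, (ofLex b.1).2)) ?_
      · have := b.2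
        simp only [mem_Iio, Prod.Lex.lt_iff] at this
        rcases this with h | h
        · exact h.le
        · exact h.1.le
      · intro b c h
        simp only [Prod.mk.injEq, Subtype.mk.injEq] at h
        apply Subtype.ext
        apply ofLex.injective
        exact Prod.ext h.1 h.2
    refine lt_of_le_of_lt h1 ?_
    rw [Cardinal.mk_prod, Cardinal.lift_id, Cardinal.lift_id]
    refine Cardinal.mul_lt_of_lt Cardinal.aleph0_le_continuum ?_ ?_
    · have : (Iic (ofLex a).1) = insert (ofLex a).1 (Iio (ofLex a).1) := by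
        ext y; simp [le_iff_eq_or_lt]
      rw [this]
      refine lt_of_le_of_lt (mk_insert_le) ?_
      refine Cardinal.add_lt_of_lt Cardinal.aleph0_le_continuum (hI _) ?_
      exact lt_of_lt_of_le Cardinal.one_lt_aleph0 Cardinal.aleph0_le_continuum
    · simpa using Cardinal.aleph0_lt_continuum
  have hex : ∀ (a : Θ ×ₗ ℕ) (f : ∀ b : Θ ×ₗ ℕ, b < a → ℝ),
      ∃ y : ℝ, y ∉ Excl st (ofLex a).1 {z | ∃ b h, z = f b h} := by
    intro a f
    by_contra! h
    have h1 : #(Excl st (ofLex a).1 {z | ∃ b h, z = f b h}) < continuum := by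
      apply mk_excl st hst
      have : {z | ∃ b h, z = f b h} = Set.range (fun b : Iio a => f b.1 b.2) := by
        ext z
        constructor
        · rintro ⟨b, h, rfl⟩
          exact ⟨⟨b, h⟩, rfl⟩
        · rintro ⟨⟨b, h⟩, rfl⟩
          exact ⟨b, h, rfl⟩
      rw [this]
      exact lt_of_le_of_lt Cardinal.mk_range_le (hcard a)
    have h2 : Excl st (ofLex a).1 {z | ∃ b h, z = f b h} = Set.univ := Set.eq_univ_of_forall h
    rw [h2, Cardinal.mk_univ, Cardinal.mk_real] at h1
    exact lt_irrefl _ h1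
  let F : ∀ a : Θ ×ₗ ℕ, ℝ := hwf.fix (fun a f => Classical.choose (hex a f))
  have hF : ∀ a, F a ∉ Excl st (ofLex a).1 {z | ∃ b, b < a ∧ z = F b} := by
    intro a
    have h1 : F a = Classical.choose (hex a (fun b _ => F b)) := hwf.fix_eq _ a
    have h2 := Classical.choose_spec (hex a (fun b _ => F b))
    rw [← h1] at h2
    simpa using h2
  refine ⟨fun α k => F (toLex (α, k)), ?_, ?_, ?_⟩
  · intro α k
    have := hF (toLex (α, k))
    intro h
    exact this (Or.inr h)
  · intro α k β j h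
    rcases lt_trichotomy (toLex (α, k)) (toLex (β, j)) with h1 | h1 | h1
    · exact absurd (Or.inl (Or.inr ⟨_, h1, h.symm⟩)) (hF (toLex (β, j)))
    · have := toLex.injective h1
      simpa using this
    · exact absurd (Or.inl (Or.inr ⟨_, h1, h⟩)) (hF (toLex (α, k)))
  · intro α k p x hp hx
    have h1 := hF (toLex (α, k))
    have hx' : ∀ z ∈ x, z ∈ {z | ∃ b, b < toLex (α, k) ∧ z = F b} ∨
        -z ∈ {z | ∃ b, b < toLex (α, k) ∧ z = F b} := by
      intro z hz
      obtain ⟨β, j, hlt, h⟩ := hx z hz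
      have hlt' : toLex (β, j) < toLex (α, k) := by
        rw [Prod.Lex.lt_iff]
        simpa using hlt
      rcases h with h | h
      · exact Or.inl ⟨_, hlt', h⟩
      · exact Or.inr ⟨_, hlt', by rw [h, neg_neg]⟩
    constructor
    · intro h
      exact h1 (Or.inl (Or.inl ⟨p, hp, x, hx', Or.inl h⟩))
    · intro h
      exact h1 (Or.inl (Or.inl ⟨p, hp, x, hx', Or.inr h⟩))

end generic

end Pool.Agent.H963Top
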