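import Pool.Agent.H963Top.A

set_option autoImplicit false

namespace Pool.Agent.H963Top

open Cardinal Order Set

structure GenR {Θ : Type} [LinearOrder Θ] (st : Par → Θ) (r : Θ → ℕ → ℝ) : Prop where
  irr : ∀ α k, Irrational (r α k)
  inj : ∀ α k β j, r α k = r β j → α = β ∧ k = j
  gen : ∀ α k (p : Par) (x : List ℝ), st p ≤ α →
        (∀ z ∈ x, ∃ β j, (β < α ∨ (β = α ∧ j < k)) ∧ (z = r β j ∨ z = - r β j)) →
        r α k ≠ Ex p x ∧ r α k ≠ - Ex p x

theorem lemG (M : ℕ) (p : ℕ → ℝ) (D : ℕ → ℕ → ℝ) (mask : Set ℕ)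
    (hcl : ∀ q : ℕ → ℚ, (∀ i < M, p i < q i) → ∃ t ∈ mask, ∀ i < M, D t i < q i)
    (hgen : ∀ j < M, ∀ q : ℕ → ℚ, p j ≠ sInf {y | ∃ t ∈ {t | t ∈ mask ∧
      ∀ i, j < i → i < M → D t i < q i}, y = D t j ∧ ∀ i < j, D t i < p i}) :
    ∃ t ∈ mask, ∀ i < M, D t i < p i := by
  by_contra hcon
  have key : ∀ l, l ≤ M → ∃ q : ℕ → ℚ, (∀ i, M - l ≤ i → i < M → p i < q i) ∧
      ∀ t ∈ mask, ¬ ((∀ i < M - l, D t i < p i) ∧ ∀ i, M - l ≤ i → i < M → D t i < q i) := by
    intro l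
    induction l with
    | zero =>
      intro _
      refine ⟨fun _ => 0, fun i h1 h2 => by omega, fun t ht h => hcon ⟨t, ht, fun i hi => h.1 i (by omega)⟩⟩
    | succ l ih =>
      intro hl
      obtain ⟨q, hq1, hq2⟩ := ih (by omega)
      set j := M - (l+1) with hj
      have hj1 : M - l = j + 1 := by omega
      have hjM : j < M := by omega
      rw [hj1] at hq1 hq2
      set T := {y | ∃ t ∈ {t | t ∈ mask ∧
        ∀ i, j < i → i < M → D t i < q i}, y = D t j ∧ ∀ i < j, D t i < p i} with hT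
      have hTlow : ∀ y ∈ T, p j ≤ y := by
        rintro y ⟨t, ⟨ht1, ht2⟩, rfl, ht3⟩
        by_contra hlt
        push_neg at hlt
        refine hq2 t ht1 ⟨fun i hi => ?_, fun i h1 h2 => ht2 i (by omega) h2⟩
        rcases Nat.lt_succ_iff_lt_or_eq.1 hi with h | h
        · exact ht3 i h
        · rw [h]; exact hlt
      have hex : ∃ c : ℚ, p j < c ∧ ∀ y ∈ T, (c : ℝ) < y := by
        by_cases hne : T.Nonempty
        · have h1 : p j ≤ sInf T := le_csInf hne hTlow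
          have h2 : p j < sInf T := lt_of_le_of_ne h1 (hgen j hjM q)
          obtain ⟨c, hc1, hc2⟩ := exists_rat_btwn h2
          exact ⟨c, hc1, fun y hy => lt_of_lt_of_le hc2 (csInf_le ⟨p j, hTlow⟩ hy)⟩
        · obtain ⟨c, hc⟩ := exists_rat_gt (p j)
          exact ⟨c, hc, fun y hy => absurd ⟨y, hy⟩ hne⟩
      obtain ⟨c, hc1, hc2⟩ := hex
      refine ⟨fun i => if i = j then c else q i, ?_, ?_⟩
      · intro i h1 h2
        by_cases h : i = j
        · rw [h]; simpa using hc1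
        · simp only [h, if_false]
          exact hq1 i (by omega) h2
      · intro t ht h
        have h3 : D t j < c := by simpa using h.2 j le_rfl hjM
        have h4 : D t j ∈ T := ⟨t, ⟨ht, fun i h1 h2 => by
          have := h.2 i (by omega) h2
          have hne : i ≠ j := by omega
          simpa [hne] using this⟩, rfl, h.1⟩
        exact absurd (hc2 _ h4) (not_lt.2 h3.le)
  obtain ⟨q, hq1, hq2⟩ := key M le_rfl
  obtain ⟨t, ht, h⟩ := hcl q (fun i hi => hq1 i (by omega) hi)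
  exact hq2 t ht ⟨fun i hi => by omega, fun i _ hi => h i hi⟩

/-- an enumeration of the rationals -/
noncomputable def qe : ℕ → ℚ := Classical.choose (exists_surjective_nat ℚ)

theorem qe_surj : Function.Surjective qe := Classical.choose_spec (exists_surjective_nat ℚ)

section col

variable {Θ : Type} (r : Θ → ℕ → ℝ)

def sepp (k : ℕ) (α β : Θ) : Prop := ∃ t < k, ¬ (r α 0 < qe t ↔ r β 0 < qe t)

def ccond (α β : Θ) (k : ℕ) : Prop :=
  1 ≤ k ∧ ((r α k < r β k ↔ ¬ r α 0 < r β 0) ∨ sepp r k α β)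

/-- the colour of a pair -/
noncomputable def col (α β : Θ) : ℕ := sInf {k | ccond r α β k}

theorem col_self (α : Θ) : col r α α = 0 := by
  unfold col
  have : {k | ccond r α α k} = ∅ := by
    ext k
    simp [ccond, sepp]
  rw [this]; simp

theorem col_eq {α β : Θ} {n : ℕ} (h : ccond r α β n) (h' : ∀ k < n, ¬ ccond r α β k) :
    col r α β = n := by
  apply le_antisymm
  · exact Nat.sInf_le h
  · refine le_csInf ⟨n, h⟩ ?_
    intro k hk
    by_contra hlt
    exact h' k (not_le.1 hlt) hk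

def agr (L : ℕ) (α α' : Θ) : Prop := ∀ k < L, ∀ t < L, (r α k < qe t ↔ r α' k < qe t)

theorem agr.mono {L L' : ℕ} {α α' : Θ} (h : agr r L α α') (hL : L' ≤ L) : agr r L' α α' :=
  fun k hk t ht => h k (by omega) t (by omega)

theorem agr_refl (L : ℕ) (α : Θ) : agr r L α α := fun _ _ _ _ => Iff.rfl

variable {r}

theorem exists_sep {a b : ℝ} (h : a ≠ b) : ∃ t, (a < qe t ∧ qe t < b) ∨ (b < qe t ∧ qe t < a) := by
  rcases lt_or_gt_of_ne h with h | h
  · obtain ⟨q, h1, h2⟩ := exists_rat_btwn h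
    obtain ⟨t, rfl⟩ := qe_surj q
    exact ⟨t, Or.inl ⟨h1, h2⟩⟩
  · obtain ⟨q, h1, h2⟩ := exists_rat_btwn h
    obtain ⟨t, rfl⟩ := qe_surj q
    exact ⟨t, Or.inr ⟨h1, h2⟩⟩

theorem ccond_nonempty (hinj : ∀ α k β j, r α k = r β j → α = β ∧ k = j) {α β : Θ} (h : α ≠ β) :
    ∃ k, ccond r α β k := by
  have h0 : r α 0 ≠ r β 0 := fun h' => h (hinj _ _ _ _ h').1
  obtain ⟨t, ht⟩ := exists_sep h0
  refine ⟨t + 1, by omega, Or.inr ⟨t, by omega, ?_⟩⟩
  rcases ht with ⟨h1, h2⟩ | ⟨h1, h2⟩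
  · intro h3
    exact absurd (h3.1 h1) (not_lt.2 h2.le)
  · intro h3
    exact absurd (h3.2 h1) (not_lt.2 h2.le)

theorem col_loc (hinj : ∀ α k β j, r α k = r β j → α = β ∧ k = j) {α β : Θ} (h : α ≠ β) :
    ∃ L, ∀ α' β', agr r L α α' → agr r L β β' → col r α' β' = col r α β ∧ α' ≠ β' := by
  set n := col r α β with hn
  have hsep : ∀ k, ∃ t, (r α k < qe t ∧ qe t < r β k) ∨ (r β k < qe t ∧ qe t < r α k) :=
    fun k => exists_sep (fun h' => h (hinj _ _ _ _ h').1)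
  choose tt htt using hsep
  set L := (n + 1) + (Finset.range (n+1)).sup (fun k => tt k + 1) with hL
  have hLt : ∀ k ≤ n, tt k < L := by
    intro k hk
    have : tt k + 1 ≤ (Finset.range (n+1)).sup (fun k => tt k + 1) :=
      Finset.le_sup (f := fun k => tt k + 1) (Finset.mem_range.2 (by omega))
    omega
  refine ⟨L, fun α' β' h1 h2 => ?_⟩
  have hsg : ∀ k ≤ n, (r α' k < r β' k ↔ r α k < r β k) := by
    intro k hk
    have a1 := h1 k (by omega) (tt k) (hLt k hk)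
    have a2 := h2 k (by omega) (tt k) (hLt k hk)
    rcases htt k with ⟨h3, h4⟩ | ⟨h3, h4⟩
    · have b1 := a1.1 h3
      have b2 : ¬ r β' k < qe (tt k) := fun h5 => absurd (a2.2 h5) (not_lt.2 h4.le)
      push_neg at b2
      exact ⟨fun _ => h3.trans h4, fun _ => lt_of_lt_of_le b1 b2⟩
    · have b1 := a2.1 h3
      have b2 : ¬ r α' k < qe (tt k) := fun h5 => absurd (a1.2 h5) (not_lt.2 h4.le)
      push_neg at b2
      exact ⟨fun h5 => absurd (h5.trans b1) (not_lt.2 b2), fun h5 => absurd (h5.trans h3) (not_lt.2 h4.le)⟩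
  have hse : ∀ k ≤ n, (sepp r k α' β' ↔ sepp r k α β) := by
    intro k hk
    unfold sepp
    have : ∀ t < k, ((r α' 0 < qe t ↔ r β' 0 < qe t) ↔ (r α 0 < qe t ↔ r β 0 < qe t)) := by
      intro t ht
      rw [h1 0 (by omega) t (by omega), h2 0 (by omega) t (by omega)]
    constructor
    · rintro ⟨t, ht, h3⟩
      exact ⟨t, ht, fun h4 => h3 ((this t ht).2 h4)⟩
    · rintro ⟨t, ht, h3⟩
      exact ⟨t, ht, fun h4 => h3 ((this t ht).1 h4)⟩
  have hcc : ∀ k ≤ n, (ccond r α' β' k ↔ ccond r α β k) := by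
    intro k hk
    unfold ccond
    rw [hsg k hk, hsg 0 (by omega), hse k hk]
  have hmem : ccond r α β n := Nat.sInf_mem (ccond_nonempty hinj h)
  have hlt : ∀ k < n, ¬ ccond r α β k := fun k hk h3 => absurd (Nat.sInf_le h3) (not_le.2 hk)
  constructor
  · exact col_eq r ((hcc n le_rfl).2 hmem) (fun k hk h3 => hlt k hk ((hcc k hk.le).1 h3))
  · intro h3
    subst h3
    have a1 := h1 0 (by omega) (tt 0) (hLt 0 (by omega))
    have a2 := h2 0 (by omega) (tt 0) (hLt 0 (by omega))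
    rcases htt 0 with ⟨h3, h4⟩ | ⟨h3, h4⟩
    · exact absurd (a2.2 (a1.1 h3)) (not_lt.2 h4.le)
    · exact absurd (a1.2 (a2.1 h3)) (not_lt.2 h4.le)

theorem col_diag {α α' : Θ} {n : ℕ} (hn : 1 ≤ n) (hsep : ∀ t < n, (r α' 0 < qe t ↔ r α 0 < qe t))
    (hlt : ∀ k < n, r α' k < r α k) (hgt : r α n < r α' n) :
    col r α' α = n ∧ col r α α' = n := by
  have h0 := hlt 0 (by omega)
  constructor
  · apply col_eq
    · exact ⟨hn, Or.inl ⟨fun h => absurd h (not_lt.2 hgt.le), fun h => absurd h0 h⟩⟩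
    · rintro k hk ⟨h1, h2 | ⟨t, ht, h2⟩⟩
      · exact (h2.1 (hlt k hk)) h0
      · exact h2 (hsep t (by omega))
  · apply col_eq
    · exact ⟨hn, Or.inl ⟨fun _ => not_lt.2 h0.le, fun _ => hgt⟩⟩
    · rintro k hk ⟨h1, h2 | ⟨t, ht, h2⟩⟩
      · exact absurd (h2.2 (not_lt.2 h0.le)) (not_lt.2 (hlt k hk).le)
      · exact h2 (hsep t (by omega)).symm

end col

end Pool.Agent.H963Top
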