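import Mathlib

set_option autoImplicit false

namespace Pool.Agent.H963Top

open Finset ComplexConjugate

theorem bogo {Z : Type} [AddCommGroup Z] [Fintype Z] (h3 : ∀ z : Z, 3 • z = 0) (A : Finset Z) (m : ℕ)
    (hA : Fintype.card Z ≤ m * A.card) :
    ∃ H : AddSubgroup Z, (∀ z ∈ H, ∃ a ∈ A, ∃ b ∈ A, ∃ c ∈ A, ∃ d ∈ A, z = a - b + (c - d)) ∧
      ∀ v : Fin (3 ^ (2 * m ^ 2) + 1) → Z, ∃ i j, i ≠ j ∧ v i - v j ∈ H := by
  classical
  let S : AddChar Z ℂ → ℂ := fun ψ => ∑ a ∈ A, ψ a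
  let N : AddChar Z ℂ → ℝ := fun ψ => Complex.normSq (S ψ)
  have hN : ∀ ψ, ((N ψ : ℝ) : ℂ) = ∑ a ∈ A, ∑ b ∈ A, ψ (a - b) := by
    intro ψ
    change ((Complex.normSq (S ψ) : ℝ) : ℂ) = _
    rw [← Complex.mul_conj]
    change (∑ a ∈ A, ψ a) * conj (∑ a ∈ A, ψ a) = _
    rw [map_sum, Finset.sum_mul_sum]
    refine Finset.sum_congr rfl fun a _ => Finset.sum_congr rfl fun b _ => ?_
    rw [← AddChar.map_neg_eq_conj, sub_eq_add_neg, AddChar.map_add_eq_mul]
  have hN0 : ∀ ψ, 0 ≤ N ψ := fun ψ => Complex.normSq_nonneg _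
  set q : ℝ := (Fintype.card Z : ℝ) with hq
  set α : ℝ := (A.card : ℝ) with hα
  have hZpos : 0 < Fintype.card Z := Fintype.card_pos
  have hqpos : 0 < q := by
    rw [hq]
    exact_mod_cast hZpos
  have hApos : 0 < A.card := by
    rcases Nat.eq_zero_or_pos A.card with h | h
    · rw [h, mul_zero] at hA
      omega
    · exact h
  have hαpos : 0 < α := by
    rw [hα]
    exact_mod_cast hApos
  have hαq : α ≤ q := by
    rw [hα, hq]
    exact_mod_cast Finset.card_le_univ A
  have hqm : q ≤ m * α := by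
    rw [hα, hq]
    exact_mod_cast hA
  -- Parseval
  have hP : ∑ ψ, N ψ = q * α := by
    have : ((∑ ψ, N ψ : ℝ) : ℂ) = ((q * α : ℝ) : ℂ) := by
      push_cast
      simp_rw [hN]
      rw [Finset.sum_comm]
      have : ∀ a ∈ A, ∑ ψ : AddChar Z ℂ, ∑ b ∈ A, ψ (a - b) = (q : ℂ) := by
        intro a ha
        rw [Finset.sum_comm]
        simp_rw [AddChar.sum_apply_eq_ite, sub_eq_zero]
        rw [Finset.sum_ite_eq, if_pos ha]
        simp [hq]
      rw [Finset.sum_congr rfl this, Finset.sum_const, nsmul_eq_mul, hα]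
      push_cast
      ring
    exact_mod_cast this
  have hN1 : N 0 = α ^ 2 := by
    change Complex.normSq (∑ a ∈ A, (0 : AddChar Z ℂ) a) = _
    simp [hα, Complex.normSq_natCast, sq]
  set θ : ℝ := α ^ 3 / (2 * q) with hθ
  have hθpos : 0 < θ := by positivity
  have hθq : θ * (q * α) = α ^ 4 / 2 := by
    rw [hθ]
    field_simp
  let Spec : Finset (AddChar Z ℂ) := Finset.univ.filter (fun ψ => θ < N ψ)
  let H : AddSubgroup Z :=
    { carrier := {z | ∀ ψ ∈ Spec, ψ z = 1}
      add_mem' := by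
        intro a b ha hb ψ hψ
        rw [AddChar.map_add_eq_mul, ha ψ hψ, hb ψ hψ, one_mul]
      zero_mem' := by
        intro ψ _
        exact AddChar.map_zero_eq_one ψ
      neg_mem' := by
        intro a ha ψ hψ
        rw [AddChar.map_neg_eq_inv, ha ψ hψ, inv_one] }
  refine ⟨H, ?_, ?_⟩
  · intro z hz
    by_contra hcon
    have hN' : ∀ ψ, ((N ψ : ℝ) : ℂ) = ∑ p ∈ A ×ˢ A, ψ (p.1 - p.2) := by
      intro ψ
      rw [hN, Finset.sum_product]
    have hsum : ∑ ψ : AddChar Z ℂ, ((N ψ : ℝ) : ℂ) ^ 2 * ψ (-z) = 0 := by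
      have e1 : ∀ ψ : AddChar Z ℂ, ((N ψ : ℝ) : ℂ) ^ 2 * ψ (-z) =
          ∑ p ∈ A ×ˢ A, ∑ p' ∈ A ×ˢ A, ψ (p.1 - p.2 + (p'.1 - p'.2) + -z) := by
        intro ψ
        rw [sq, hN', Finset.sum_mul_sum, Finset.sum_mul]
        refine Finset.sum_congr rfl fun p _ => ?_
        rw [Finset.sum_mul]
        refine Finset.sum_congr rfl fun p' _ => ?_
        rw [AddChar.map_add_eq_mul, AddChar.map_add_eq_mul]
      simp_rw [e1]
      rw [Finset.sum_comm]
      refine Finset.sum_eq_zero fun p hp => ?_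
      rw [Finset.sum_comm]
      refine Finset.sum_eq_zero fun p' hp' => ?_
      rw [AddChar.sum_apply_eq_ite, if_neg]
      intro h0
      apply hcon
      rw [Finset.mem_product] at hp hp'
      exact ⟨p.1, hp.1, p.2, hp.2, p'.1, hp'.1, p'.2, hp'.2, (add_neg_eq_zero.1 h0).symm⟩
    have hre : ∑ ψ : AddChar Z ℂ, (N ψ) ^ 2 * (ψ (-z)).re = 0 := by
      have := congrArg Complex.re hsum
      rw [Complex.re_sum, Complex.zero_re] at this
      rw [← this]
      refine Finset.sum_congr rfl fun ψ _ => ?_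
      rw [← Complex.ofReal_pow, Complex.re_ofReal_mul]
    have hnn : ∀ ψ ∈ (Finset.univ : Finset (AddChar Z ℂ)),
        0 ≤ (N ψ) ^ 2 * (ψ (-z)).re + θ * N ψ := by
      intro ψ _
      by_cases hψ : θ < N ψ
      · have : ψ (-z) = 1 := H.neg_mem hz ψ (Finset.mem_filter.2 ⟨Finset.mem_univ _, hψ⟩)
        rw [this, Complex.one_re]
        have := hN0 ψ
        positivity
      · have h1 : -1 ≤ (ψ (-z)).re := by
          have h2 : ‖ψ (-z)‖ = 1 := AddChar.norm_apply _ _
          have h3 := Complex.abs_re_le_norm (ψ (-z))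
          rw [h2] at h3
          exact (abs_le.1 h3).1
        have h2 := not_lt.1 hψ
        have h3 := hN0 ψ
        nlinarith [mul_nonneg h3 h3, mul_nonneg h3 (sub_nonneg.2 h2),
          mul_nonneg (mul_nonneg h3 h3) (by linarith : (0:ℝ) ≤ (ψ (-z)).re + 1)]
    have hle := Finset.single_le_sum hnn (Finset.mem_univ (0 : AddChar Z ℂ))
    rw [Finset.sum_add_distrib, hre, ← Finset.mul_sum, hP, hθq, hN1] at hle
    have : ((0 : AddChar Z ℂ) (-z)).re = 1 := by simp
    rw [this] at hle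
    have h4 : 0 < α ^ 4 := by positivity
    have h5 : 0 ≤ θ * α ^ 2 := by positivity
    nlinarith
  · intro v
    have hcard : Spec.card ≤ 2 * m ^ 2 := by
      have h1 : (Spec.card : ℝ) * θ ≤ q * α := by
        rw [← hP, ← nsmul_eq_mul]
        calc Spec.card • θ ≤ ∑ ψ ∈ Spec, N ψ :=
              Finset.card_nsmul_le_sum _ _ _ (fun ψ hψ => (Finset.mem_filter.1 hψ).2.le)
          _ ≤ ∑ ψ, N ψ := Finset.sum_le_sum_of_subset_of_nonneg (Finset.subset_univ _)
              (fun ψ _ _ => hN0 ψ)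
      have h2 : (Spec.card : ℝ) * α ^ 2 ≤ 2 * q ^ 2 := by
        rw [hθ] at h1
        have h3 : (Spec.card : ℝ) * (α ^ 3 / (2 * q)) * (2 * q / α) ≤ q * α * (2 * q / α) :=
          mul_le_mul_of_nonneg_right h1 (by positivity)
        have h4 : (Spec.card : ℝ) * (α ^ 3 / (2 * q)) * (2 * q / α) = (Spec.card : ℝ) * α ^ 2 := by
          field_simp
        have h5 : q * α * (2 * q / α) = 2 * q ^ 2 := by
          field_simp
        rw [h4, h5] at h3
        exact h3
      have h3 : (Spec.card : ℝ) * α ^ 2 ≤ (2 * m ^ 2 : ℝ) * α ^ 2 := by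
        refine h2.trans ?_
        have : q ^ 2 ≤ (m * α) ^ 2 := by gcongr
        nlinarith
      have h4 : (Spec.card : ℝ) ≤ (2 * m ^ 2 : ℝ) := le_of_mul_le_mul_right h3 (by positivity)
      exact_mod_cast h4
    let R3 : Finset ℂ := Polynomial.nthRootsFinset 3 (1 : ℂ)
    have hR3 : R3.card ≤ 3 := by
      refine (Multiset.toFinset_card_le _).trans ?_
      exact Polynomial.card_nthRoots 3 (1 : ℂ)
    let F : Finset (Spec → ℂ) := Fintype.piFinset (fun _ => R3)
    have hF : F.card ≤ 3 ^ (2 * m ^ 2) := by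
      rw [Fintype.card_piFinset, Finset.prod_const]
      calc R3.card ^ (Finset.univ : Finset Spec).card ≤ 3 ^ (Finset.univ : Finset Spec).card :=
            Nat.pow_le_pow_left hR3 _
        _ ≤ 3 ^ (2 * m ^ 2) := by
            apply Nat.pow_le_pow_right (by norm_num)
            rw [Finset.card_univ, Fintype.card_coe]
            exact hcard
    obtain ⟨i, -, j, -, hij, he⟩ := Finset.exists_ne_map_eq_of_card_lt_of_maps_to
      (s := (Finset.univ : Finset (Fin (3 ^ (2 * m ^ 2) + 1)))) (t := F)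
      (f := fun i => fun ψ : Spec => ψ.1 (v i)) (by
        rw [Finset.card_univ, Fintype.card_fin]
        omega) (by
        intro i _
        rw [Finset.mem_coe, Fintype.mem_piFinset]
        intro ψ
        rw [Polynomial.mem_nthRootsFinset (by norm_num)]
        rw [← AddChar.map_nsmul_eq_pow, h3, AddChar.map_zero_eq_one])
    refine ⟨i, j, hij, ?_⟩
    intro ψ hψ
    have := congrFun he ⟨ψ, hψ⟩
    dsimp only at this
    rw [AddChar.map_sub_eq_div, this, div_self]
    intro h0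
    have h1 : ‖ψ (v j)‖ = 1 := AddChar.norm_apply _ _
    rw [h0, norm_zero] at h1
    exact zero_ne_one h1

end Pool.Agent.H963Top
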