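import Pool.Agent.H963Top.B

set_option autoImplicit false

namespace Pool.Agent.H963Top

open Cardinal Order Set

theorem dense_seq {P ι : Type} [Countable ι] (Φ : P → ι → Prop) (S : Set P) (hne : S.Nonempty) :
    ∃ e : ℕ → P, (∀ n, e n ∈ S) ∧ ∀ p ∈ S, ∀ F : Finset ι, ∃ n, ∀ i ∈ F, (Φ (e n) i ↔ Φ p i) := by
  classical
  obtain ⟨f, hf⟩ := exists_surjective_nat (Finset ι × Finset ι)
  obtain ⟨s0, hs0⟩ := hne
  refine ⟨fun n => if h : ∃ p ∈ S, ∀ i ∈ (f n).1, (Φ p i ↔ i ∈ (f n).2) then Classical.choose h else s0,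
    ?_, ?_⟩
  · intro n
    dsimp only
    split_ifs with h
    · exact (Classical.choose_spec h).1
    · exact hs0
  · intro p hp F
    obtain ⟨n, hn⟩ := hf (F, F.filter (fun i => Φ p i))
    have h : ∃ p ∈ S, ∀ i ∈ (f n).1, (Φ p i ↔ i ∈ (f n).2) := by
      refine ⟨p, hp, fun i hi => ?_⟩
      rw [hn] at hi ⊢
      simp only [Finset.mem_filter]
      exact ⟨fun h => ⟨hi, h⟩, fun h => h.2⟩
    refine ⟨n, fun i hi => ?_⟩
    dsimp only
    rw [dif_pos h]
    have h2 := (Classical.choose_spec h).2 i (by rw [hn]; exact hi)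
    rw [h2, hn]
    simp only [Finset.mem_filter]
    exact ⟨fun h => h.2, fun h => ⟨hi, h⟩⟩

/-- points: assignments of indices to ordinals and of label indices to labels -/
abbrev Pt (Θ : Type) := (ℕ → Θ) × (ℕ → ℕ → Bool)

abbrev Ix := (ℕ × ℕ × ℕ) ⊕ (ℕ × ℕ)

def Phi {Θ : Type} (r : Θ → ℕ → ℝ) (p : Pt Θ) : Ix → Prop
  | Sum.inl (i, k, t) => r (p.1 i) k < qe t
  | Sum.inr (j, s) => p.2 j s = true

noncomputable def eps (n s : ℕ) : ℝ := if s % (n+1) < n then 1 else -1

noncomputable def VV {Θ : Type} (r : Θ → ℕ → ℝ) (ρ n : ℕ) (p : Pt Θ) (s : ℕ) : ℝ :=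
  eps n s * r (p.1 (ρ + s / (n+1))) (s % (n+1))

theorem VV_pm {Θ : Type} (r : Θ → ℕ → ℝ) (ρ n : ℕ) (p : Pt Θ) (s : ℕ) :
    VV r ρ n p s = r (p.1 (ρ + s / (n+1))) (s % (n+1)) ∨
    VV r ρ n p s = - r (p.1 (ρ + s / (n+1))) (s % (n+1)) := by
  unfold VV eps
  split_ifs
  · left; ring
  · right; ring

theorem find {Θ : Type} [LinearOrder Θ] {st : Par → Θ} {r : Θ → ℕ → ℝ} (hG : GenR st r)
    (hb : ∀ T : Set Θ, T.Countable → ∃ x, ∀ t ∈ T, t < x) (P : Set (Pt Θ)) (ρ m : ℕ) :
    ∃ γ : Θ, ∀ p ∈ P, (∀ i < m, γ ≤ p.1 (ρ+i)) →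
      (∀ i j, i < j → j < m → p.1 (ρ+i) < p.1 (ρ+j)) → ∀ n, 1 ≤ n → ∀ F : Finset Ix,
      ∃ p' ∈ P, (∀ i ∈ F, (Phi r p' i ↔ Phi r p i)) ∧
        ∀ i < m, col r (p'.1 (ρ+i)) (p.1 (ρ+i)) = n ∧ col r (p.1 (ρ+i)) (p'.1 (ρ+i)) = n := by
  classical
  rcases P.eq_empty_or_nonempty with hP | hP
  · obtain ⟨γ, _⟩ := hb ∅ Set.countable_empty
    exact ⟨γ, fun p hp => by simp [hP] at hp⟩
  obtain ⟨e, he, hed⟩ := dense_seq (Phi r) P hP
  let param : ℕ × Finset Ix × Finset Ix × ℕ × List ℚ → Par := fun z =>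
    ({t | (∀ i ∈ z.2.1, (Phi r (e t) i ↔ i ∈ z.2.2.1)) ∧
      ∀ s, z.2.2.2.1 < s → s < m * (z.1 + 1) → VV r ρ z.1 (e t) s < (z.2.2.2.2.getD s 0 : ℚ)},
      fun t => VV r ρ z.1 (e t) z.2.2.2.1, fun t i => VV r ρ z.1 (e t) i)
  obtain ⟨γ, hγ⟩ := hb (Set.range (fun z => st (param z))) (Set.countable_range _)
  refine ⟨γ, fun p hp hpγ hpm n hn F => ?_⟩
  set F1 : Finset Ix := F ∪ (Finset.range m ×ˢ Finset.range n).image
    (fun x => Sum.inl (ρ + x.1, 0, x.2)) with hF1
  set A := F1.filter (fun i => Phi r p i) with hA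
  set mask : Set ℕ := {t | ∀ i ∈ F1, (Phi r (e t) i ↔ i ∈ A)} with hmask
  have hdm : ∀ j, j < m * (n+1) → j / (n+1) < m := fun j hj =>
    Nat.div_lt_of_lt_mul (by rw [Nat.mul_comm]; exact hj)
  have main := lemG (m * (n+1)) (fun s => VV r ρ n p s) (fun t s => VV r ρ n (e t) s) mask ?_ ?_
  · obtain ⟨t, ht, hlt⟩ := main
    have hagr : ∀ i ∈ F1, (Phi r (e t) i ↔ Phi r p i) := by
      intro i hi
      rw [ht i hi, hA, Finset.mem_filter]
      exact ⟨fun h => h.2, fun h => ⟨hi, h⟩⟩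
    refine ⟨e t, he t, fun i hi => hagr i (Finset.mem_union_left _ hi), fun i hi => ?_⟩
    have hval : ∀ k ≤ n, VV r ρ n (e t) (i * (n+1) + k) < VV r ρ n p (i * (n+1) + k) := by
      intro k hk
      apply hlt
      calc i * (n+1) + k < (i+1) * (n+1) := by ring_nf; omega
        _ ≤ m * (n+1) := Nat.mul_le_mul_right _ hi
    have hdiv : ∀ k ≤ n, (i * (n+1) + k) / (n+1) = i := by
      intro k hk
      rw [Nat.mul_comm, Nat.mul_add_div (by omega), Nat.div_eq_of_lt (by omega)]
      simp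
    have hmod : ∀ k ≤ n, (i * (n+1) + k) % (n+1) = k := by
      intro k hk
      rw [Nat.mul_comm, Nat.mul_add_mod, Nat.mod_eq_of_lt (by omega)]
    apply col_diag hn
    · intro t' ht'
      have := hagr (Sum.inl (ρ + i, 0, t')) (by
        apply Finset.mem_union_right
        rw [Finset.mem_image]
        exact ⟨(i, t'), by simp [hi, ht'], rfl⟩)
      exact this
    · intro k hk
      have := hval k hk.le
      unfold VV eps at this
      rw [hdiv k hk.le, hmod k hk.le] at this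
      simpa [hk] using this
    · have := hval n le_rfl
      unfold VV eps at this
      rw [hdiv n le_rfl, hmod n le_rfl] at this
      simpa using this
  · -- closure
    intro q hq
    choose tq htq using fun s => qe_surj (q s)
    choose tq' htq' using fun s => qe_surj (- q s)
    obtain ⟨t, ht⟩ := hed p hp (F1 ∪ ((Finset.range (m * (n+1))).image
      (fun s => (Sum.inl (ρ + s / (n+1), s % (n+1), tq s) : Ix))) ∪
      ((Finset.range (m * (n+1))).image
      (fun s => (Sum.inl (ρ + s / (n+1), s % (n+1), tq' s) : Ix))))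
    refine ⟨t, ?_, ?_⟩
    · intro i hi
      rw [ht i (Finset.mem_union_left _ (Finset.mem_union_left _ hi)), hA, Finset.mem_filter]
      exact ⟨fun h => ⟨hi, h⟩, fun h => h.2⟩
    · intro s hs
      have h1 := ht (Sum.inl (ρ + s / (n+1), s % (n+1), tq s)) (by
        apply Finset.mem_union_left
        apply Finset.mem_union_right
        exact Finset.mem_image_of_mem _ (Finset.mem_range.2 hs))
      have h2 := ht (Sum.inl (ρ + s / (n+1), s % (n+1), tq' s)) (by
        apply Finset.mem_union_right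
        exact Finset.mem_image_of_mem _ (Finset.mem_range.2 hs))
      simp only [Phi, htq, htq'] at h1 h2
      have h3 := hq s hs
      unfold VV eps at h3 ⊢
      split_ifs with h4
      · rw [if_pos h4] at h3
        rw [one_mul] at h3 ⊢
        exact h1.2 h3
      · rw [if_neg h4] at h3
        push_cast at h2
        have h5 : ¬ (r (p.1 (ρ + s / (n+1))) (s % (n+1)) < -(q s : ℝ)) := by
          intro h6; linarith
        have h6 : ¬ (r ((e t).1 (ρ + s / (n+1))) (s % (n+1)) < -(q s : ℝ)) := fun h7 => h5 (h2.1 h7)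
        have h7 : r ((e t).1 (ρ + s / (n+1))) (s % (n+1)) ≠ -(q s : ℝ) := by
          intro h8
          exact hG.irr _ _ ⟨-q s, by push_cast; exact h8.symm⟩
        have h8 : -(q s : ℝ) < r ((e t).1 (ρ + s / (n+1))) (s % (n+1)) :=
          lt_of_le_of_ne (not_lt.1 h6) (Ne.symm h7)
        linarith
  · -- genericity
    intro j hj q
    set Q : List ℚ := (List.range (m * (n+1))).map q with hQ
    set x : List ℝ := (List.range j).map (fun s => VV r ρ n p s) with hx
    have hQ' : ∀ s < m * (n+1), Q.getD s 0 = q s := by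
      intro s hs
      rw [hQ, List.getD_eq_getElem _ _ (by simpa using hs)]
      simp
    have hEx : Ex (param (n, F1, A, j, Q)) x = sInf {y | ∃ t ∈ {t | t ∈ mask ∧
        ∀ i, j < i → i < m * (n+1) → VV r ρ n (e t) i < q i}, y = VV r ρ n (e t) j ∧
        ∀ i < j, VV r ρ n (e t) i < VV r ρ n p i} := by
      unfold Ex
      congr 1
      ext y
      constructor
      · rintro ⟨t, ⟨ht1, ht2⟩, hy, ht3⟩
        refine ⟨t, ⟨ht1, fun i h1 h2 => ?_⟩, hy, fun i hi => ?_⟩
        · have := ht2 i h1 h2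
          simp only [hQ' i h2] at this
          exact this
        · have := ht3 i (by simpa [hx] using hi)
          simpa [hx] using this
      · rintro ⟨t, ⟨ht1, ht2⟩, hy, ht3⟩
        refine ⟨t, ⟨ht1, fun i h1 h2 => ?_⟩, hy, fun i hi => ?_⟩
        · simp only [hQ' i h2]
          exact ht2 i h1 h2
        · have hi' : i < j := by simpa [hx] using hi
          simpa [hx] using ht3 i hi'
    rw [← hEx]
    have hjm := hdm j hj
    have hg := hG.gen (p.1 (ρ + j / (n+1))) (j % (n+1)) (param (n, F1, A, j, Q)) x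
      ((hγ _ ⟨_, rfl⟩).le.trans (hpγ _ hjm)) (by
        intro z hz
        rw [hx, List.mem_map] at hz
        obtain ⟨s, hs, rfl⟩ := hz
        rw [List.mem_range] at hs
        refine ⟨p.1 (ρ + s / (n+1)), s % (n+1), ?_, VV_pm r ρ n p s⟩
        have h1 : s / (n+1) ≤ j / (n+1) := Nat.div_le_div_right hs.le
        rcases lt_or_eq_of_le h1 with h2 | h2
        · left
          exact hpm _ _ h2 hjm
        · right
          refine ⟨by rw [h2], ?_⟩
          have h3 := Nat.div_add_mod s (n+1)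
          have h4 := Nat.div_add_mod j (n+1)
          rw [h2] at h3
          omega)
    rcases VV_pm r ρ n p j with h | h
    · rw [h]; exact hg.1
    · rw [h]
      intro h'
      exact hg.2 (by rw [← h', neg_neg])

end Pool.Agent.H963Top
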