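import Pool.Agent.H963Top.C

set_option autoImplicit false

namespace Pool.Agent.H963Top

open Cardinal Order Set

abbrev Alp := List (List Bool) × List Bool
abbrev Code := ℕ × List Alp

theorem exists_code : ∃ code : ℕ → Code, ∀ z n0, ∃ n, n0 < n ∧ code n = z := by
  obtain ⟨f, hf⟩ := exists_surjective_nat (ℕ × Code)
  refine ⟨fun n => (f n).2, fun z n0 => ?_⟩
  by_contra! hcon
  choose g hg using fun k : ℕ => hf (k, z)
  have h1 : ∀ k, g k ≤ n0 := by
    intro k
    by_contra h2
    exact hcon (g k) (not_le.1 h2) (by rw [hg])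
  have hinj : Function.Injective g := by
    intro a b hab
    have := hg a
    rw [hab, hg b] at this
    exact (congrArg Prod.fst this).symm
  have hfin : (Set.range g).Finite := (Set.finite_Iic n0).subset (by rintro _ ⟨k, rfl⟩; exact h1 k)
  exact Set.infinite_range_of_injective hinj hfin

noncomputable def code : ℕ → Code := Classical.choose exists_code

theorem code_spec (z : Code) (n0 : ℕ) : ∃ n, n0 < n ∧ code n = z := Classical.choose_spec exists_code z n0

abbrev Y := ℕ → Bool

section words

variable {Θ : Type} (r : Θ → ℕ → ℝ)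

open Classical in
noncomputable def apx (N : ℕ) (s : Θ × Y) : Alp :=
  ((List.range N).map (fun k => (List.range N).map (fun t => decide (r s.1 k < qe t))),
    (List.range N).map s.2)

theorem apx_eq {N : ℕ} {s s' : Θ × Y} (h1 : agr r N s.1 s'.1) (h2 : ∀ t < N, s.2 t = s'.2 t) :
    apx r N s = apx r N s' := by
  unfold apx
  refine Prod.ext ?_ ?_
  · apply List.map_congr_left
    intro k hk
    apply List.map_congr_left
    intro t ht
    rw [List.mem_range] at hk ht
    have := h1 k hk t ht
    simp [this]
  · apply List.map_congr_left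
    intro t ht
    rw [List.mem_range] at ht
    exact h2 t ht

theorem apx_agr {N : ℕ} {s s' : Θ × Y} (h : apx r N s = apx r N s') :
    agr r N s.1 s'.1 ∧ ∀ t < N, s.2 t = s'.2 t := by
  unfold apx at h
  constructor
  · intro k hk t ht
    have h1 := congrArg Prod.fst h
    dsimp only at h1
    have h2 := List.map_inj_left.1 h1 k (List.mem_range.2 hk)
    have h3 := List.map_inj_left.1 h2 t (List.mem_range.2 ht)
    simpa using h3
  · intro t ht
    have h1 := congrArg Prod.snd h
    dsimp only at h1
    exact List.map_inj_left.1 h1 t (List.mem_range.2 ht)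

/-- set of colours occurring in a word -/
def cols (w : List (Θ × Y)) : Set ℕ := {k | ∃ a ∈ w, ∃ b ∈ w, k = col r a.1 b.1}

theorem cols_finite (w : List (Θ × Y)) : (cols r w).Finite := by
  have : cols r w ⊆ (fun p : (Θ × Y) × (Θ × Y) => col r p.1.1 p.2.1) ''
      ({a | a ∈ w} ×ˢ {a | a ∈ w}) := by
    rintro k ⟨a, ha, b, hb, rfl⟩
    exact ⟨(a, b), ⟨ha, hb⟩, rfl⟩
  refine Set.Finite.subset ?_ this
  apply Set.Finite.image
  exact Set.Finite.prod (List.finite_toSet w) (List.finite_toSet w)

noncomputable def ncol (w : List (Θ × Y)) : ℕ := sSup (cols r w)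

theorem ncol_eq {w : List (Θ × Y)} {n : ℕ} (h1 : n ∈ cols r w) (h2 : ∀ k ∈ cols r w, k ≤ n) :
    ncol r w = n := by
  apply le_antisymm
  · exact csSup_le ⟨n, h1⟩ h2
  · exact le_csSup (cols_finite r w).bddAbove h1

theorem ncol_reverse (w : List (Θ × Y)) : ncol r w.reverse = ncol r w := by
  unfold ncol cols
  simp

open Classical in
noncomputable def phi (w : List (Θ × Y)) : ZMod 3 :=
  if w.map (apx r (code (ncol r w)).1) = (code (ncol r w)).2.reverse ++ (code (ncol r w)).2
  then 1 else 0

theorem phi_reverse (w : List (Θ × Y)) : phi r w.reverse = phi r w := by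
  unfold phi
  rw [ncol_reverse, List.map_reverse]
  congr 1
  rw [List.reverse_eq_iff]
  simp

/-- the form on the space with basis the words -/
noncomputable def TT (a b : List (Θ × Y) →₀ ZMod 3) : ZMod 3 :=
  a.sum fun u x => b.sum fun w y => x * y * phi r (u.reverse ++ w)

/-- the letter assigned to a symbolic letter -/
def lam (p : Pt Θ) (x : ℕ × ℕ) : Θ × Y := (p.1 x.1, p.2 x.2)

noncomputable def ev (P : List (ℕ × ℕ) →₀ ZMod 3) (p : Pt Θ) : List (Θ × Y) →₀ ZMod 3 :=
  P.mapDomain (List.map (lam p))

theorem TT_ev (P Q : List (ℕ × ℕ) →₀ ZMod 3) (p' p : Pt Θ) :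
    TT r (ev P p') (ev Q p) = P.sum fun u x => Q.sum fun w y =>
      x * y * phi r ((u.map (lam p')).reverse ++ w.map (lam p)) := by
  unfold TT ev
  rw [Finsupp.sum_mapDomain_index]
  · apply Finsupp.sum_congr
    intro u _
    rw [Finsupp.sum_mapDomain_index]
    · intro w; simp
    · intro w x y; ring
  · intro u; simp
  · intro u x y
    simp only [Finsupp.sum]
    rw [← Finset.sum_add_distrib]
    apply Finset.sum_congr rfl
    intro w _
    ring

end words

end Pool.Agent.H963Top
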