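import Pool.Agent.H963Top.D

set_option autoImplicit false

namespace Pool.Agent.H963Top

open Cardinal Order Set

section

variable {Θ : Type} {r : Θ → ℕ → ℝ}

structure Ctx (r : Θ → ℕ → ℝ) (p p' : Pt Θ) (ρ m J Lb n n0 : ℕ) : Prop where
  h1 : ∀ i < ρ, p'.1 i = p.1 i
  hag : ∀ i < ρ + m, agr r Lb (p.1 i) (p'.1 i)
  hlab : ∀ j < J, ∀ s < Lb, p.2 j s = p'.2 j s
  hloc : ∀ i j, i < ρ + m → j < ρ + m → i ≠ j → ∀ α' β', agr r Lb (p.1 i) α' →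
    agr r Lb (p.1 j) β' → col r α' β' = col r (p.1 i) (p.1 j)
  hn0 : ∀ i j, i < ρ + m → j < ρ + m → col r (p.1 i) (p.1 j) ≤ n0
  hnn : n0 < n
  hdiag : ∀ i, ρ ≤ i → i < ρ + m → col r (p'.1 i) (p.1 i) = n ∧ col r (p.1 i) (p'.1 i) = n
  hNb : ∀ k ≤ n0, (code k).1 ≤ Lb

def linked (ρ : ℕ) (u w : List (ℕ × ℕ)) : Prop := ∃ i, ρ ≤ i ∧ (∃ x ∈ u, x.1 = i) ∧ (∃ x ∈ w, x.1 = i)

variable {p p' : Pt Θ} {ρ m J Lb n n0 : ℕ}

theorem Ctx.c11 (C : Ctx r p p' ρ m J Lb n n0) {i j : ℕ} (hi : i < ρ + m) (hj : j < ρ + m) :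
    col r (p'.1 i) (p'.1 j) = col r (p.1 i) (p.1 j) := by
  by_cases h : i = j
  · subst h; rw [col_self, col_self]
  · exact C.hloc i j hi hj h _ _ (C.hag i hi) (C.hag j hj)

theorem Ctx.c10 (C : Ctx r p p' ρ m J Lb n n0) {i j : ℕ} (hi : i < ρ + m) (hj : j < ρ + m)
    (h : i ≠ j ∨ i < ρ) : col r (p'.1 i) (p.1 j) = col r (p.1 i) (p.1 j) := by
  by_cases h' : i = j
  · subst h'
    rw [C.h1 i (h.resolve_left (fun h => h rfl))]
  · exact C.hloc i j hi hj h' _ _ (C.hag i hi) (agr_refl r _ _)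

theorem Ctx.c01 (C : Ctx r p p' ρ m J Lb n n0) {i j : ℕ} (hi : i < ρ + m) (hj : j < ρ + m)
    (h : i ≠ j ∨ i < ρ) : col r (p.1 i) (p'.1 j) = col r (p.1 i) (p.1 j) := by
  by_cases h' : i = j
  · subst h'
    rw [C.h1 i (h.resolve_left (fun h => h rfl))]
  · exact C.hloc i j hi hj h' _ _ (agr_refl r _ _) (C.hag j hj)

theorem Ctx.apx (C : Ctx r p p' ρ m J Lb n n0) {N : ℕ} (hN : N ≤ Lb) {x : ℕ × ℕ}
    (hx : x.1 < ρ + m ∧ x.2 < J) : apx r N (lam p' x) = apx r N (lam p x) := by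
  symm
  apply apx_eq
  · exact (C.hag x.1 hx.1).mono r hN
  · intro t ht
    exact C.hlab x.2 hx.2 t (by omega)

theorem Ctx.map_apx (C : Ctx r p p' ρ m J Lb n n0) {N : ℕ} (hN : N ≤ Lb) {u w : List (ℕ × ℕ)}
    (hu : ∀ x ∈ u, x.1 < ρ + m ∧ x.2 < J) :
    ((u.map (lam p')).reverse ++ w.map (lam p)).map (H963Top.apx r N) =
      (u.map (fun x => H963Top.apx r N (lam p x))).reverse ++
        w.map (fun x => H963Top.apx r N (lam p x)) := by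
  rw [List.map_append, List.map_reverse, List.map_map, List.map_map]
  congr 1
  congr 1
  apply List.map_congr_left
  intro x hx
  exact C.apx hN (hu x hx)

theorem map_apx0 {N : ℕ} {u w : List (ℕ × ℕ)} :
    ((u.map (lam p)).reverse ++ w.map (lam p)).map (H963Top.apx r N) =
      (u.map (fun x => H963Top.apx r N (lam p x))).reverse ++
        w.map (fun x => H963Top.apx r N (lam p x)) := by
  rw [List.map_append, List.map_reverse, List.map_map, List.map_map]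
  rfl

theorem mem_word {u w : List (ℕ × ℕ)} {q : Pt Θ} {a : Θ × Y} :
    a ∈ (u.map (lam q)).reverse ++ w.map (lam p) ↔
      (∃ x ∈ u, a = lam q x) ∨ (∃ x ∈ w, a = lam p x) := by
  simp only [List.mem_append, List.mem_reverse, List.mem_map]
  constructor
  · rintro (⟨x, hx, rfl⟩ | ⟨x, hx, rfl⟩)
    · exact Or.inl ⟨x, hx, rfl⟩
    · exact Or.inr ⟨x, hx, rfl⟩
  · rintro (⟨x, hx, rfl⟩ | ⟨x, hx, rfl⟩)
    · exact Or.inl ⟨x, hx, rfl⟩
    · exact Or.inr ⟨x, hx, rfl⟩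

theorem Ctx.ncol_unlinked (C : Ctx r p p' ρ m J Lb n n0) {u w : List (ℕ × ℕ)}
    (hu : ∀ x ∈ u, x.1 < ρ + m ∧ x.2 < J) (hw : ∀ x ∈ w, x.1 < ρ + m ∧ x.2 < J)
    (hl : ¬ linked ρ u w) :
    cols r ((u.map (lam p')).reverse ++ w.map (lam p)) =
      cols r ((u.map (lam p)).reverse ++ w.map (lam p)) := by
  have hne : ∀ x ∈ u, ∀ y ∈ w, x.1 ≠ y.1 ∨ x.1 < ρ := by
    intro x hx y hy
    by_contra! h
    exact hl ⟨x.1, h.2, ⟨x, hx, rfl⟩, ⟨y, hy, h.1.symm⟩⟩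
  have hne' : ∀ x ∈ w, ∀ y ∈ u, x.1 ≠ y.1 ∨ x.1 < ρ := by
    intro x hx y hy
    rcases hne y hy x hx with h | h
    · exact Or.inl (Ne.symm h)
    · by_cases h' : x.1 = y.1
      · right; rw [h']; exact h
      · exact Or.inl h'
  ext k
  unfold cols
  simp only [mem_word, Set.mem_setOf_eq]
  constructor
  · rintro ⟨a, ha, b, hb, rfl⟩
    rcases ha with ⟨x, hx, rfl⟩ | ⟨x, hx, rfl⟩ <;> rcases hb with ⟨y, hy, rfl⟩ | ⟨y, hy, rfl⟩
    · exact ⟨lam p x, Or.inl ⟨x, hx, rfl⟩, lam p y, Or.inl ⟨y, hy, rfl⟩, C.c11 (hu x hx).1 (hu y hy).1⟩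
    · exact ⟨lam p x, Or.inl ⟨x, hx, rfl⟩, lam p y, Or.inr ⟨y, hy, rfl⟩,
        C.c10 (hu x hx).1 (hw y hy).1 (hne x hx y hy)⟩
    · exact ⟨lam p x, Or.inr ⟨x, hx, rfl⟩, lam p y, Or.inl ⟨y, hy, rfl⟩,
        C.c01 (hw x hx).1 (hu y hy).1 (hne' x hx y hy)⟩
    · exact ⟨lam p x, Or.inr ⟨x, hx, rfl⟩, lam p y, Or.inr ⟨y, hy, rfl⟩, rfl⟩
  · rintro ⟨a, ha, b, hb, rfl⟩
    rcases ha with ⟨x, hx, rfl⟩ | ⟨x, hx, rfl⟩ <;> rcases hb with ⟨y, hy, rfl⟩ | ⟨y, hy, rfl⟩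
    · exact ⟨lam p' x, Or.inl ⟨x, hx, rfl⟩, lam p' y, Or.inl ⟨y, hy, rfl⟩,
        (C.c11 (hu x hx).1 (hu y hy).1).symm⟩
    · exact ⟨lam p' x, Or.inl ⟨x, hx, rfl⟩, lam p y, Or.inr ⟨y, hy, rfl⟩,
        (C.c10 (hu x hx).1 (hw y hy).1 (hne x hx y hy)).symm⟩
    · exact ⟨lam p x, Or.inr ⟨x, hx, rfl⟩, lam p' y, Or.inl ⟨y, hy, rfl⟩,
        (C.c01 (hw x hx).1 (hu y hy).1 (hne' x hx y hy)).symm⟩
    · exact ⟨lam p x, Or.inr ⟨x, hx, rfl⟩, lam p y, Or.inr ⟨y, hy, rfl⟩, rfl⟩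

theorem Ctx.phi_unlinked (C : Ctx r p p' ρ m J Lb n n0) {u w : List (ℕ × ℕ)}
    (hu : ∀ x ∈ u, x.1 < ρ + m ∧ x.2 < J) (hw : ∀ x ∈ w, x.1 < ρ + m ∧ x.2 < J)
    (hl : ¬ linked ρ u w) :
    phi r ((u.map (lam p')).reverse ++ w.map (lam p)) =
      phi r ((u.map (lam p)).reverse ++ w.map (lam p)) := by
  have h1 : ncol r ((u.map (lam p')).reverse ++ w.map (lam p)) =
      ncol r ((u.map (lam p)).reverse ++ w.map (lam p)) := by
    unfold ncol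
    rw [C.ncol_unlinked hu hw hl]
  have h2 : ncol r ((u.map (lam p)).reverse ++ w.map (lam p)) ≤ n0 := by
    unfold ncol
    rcases (cols r ((u.map (lam p)).reverse ++ w.map (lam p))).eq_empty_or_nonempty with h | h
    · rw [h]; simp
    · apply csSup_le h
      rintro k ⟨a, ha, b, hb, rfl⟩
      rw [mem_word] at ha hb
      rcases ha with ⟨x, hx, rfl⟩ | ⟨x, hx, rfl⟩ <;> rcases hb with ⟨y, hy, rfl⟩ | ⟨y, hy, rfl⟩
      · exact C.hn0 _ _ (hu x hx).1 (hu y hy).1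
      · exact C.hn0 _ _ (hu x hx).1 (hw y hy).1
      · exact C.hn0 _ _ (hw x hx).1 (hu y hy).1
      · exact C.hn0 _ _ (hw x hx).1 (hw y hy).1
  unfold phi
  rw [h1, C.map_apx (C.hNb _ h2) hu, map_apx0]

theorem Ctx.phi_linked (C : Ctx r p p' ρ m J Lb n n0) {u w : List (ℕ × ℕ)}
    (hu : ∀ x ∈ u, x.1 < ρ + m ∧ x.2 < J) (hw : ∀ x ∈ w, x.1 < ρ + m ∧ x.2 < J)
    (hl : linked ρ u w) {N : ℕ} {v : List Alp} (hcode : code n = (N, v)) (hN : N ≤ Lb) :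
    phi r ((u.map (lam p')).reverse ++ w.map (lam p)) = 
      open Classical in if (u.map (fun x => H963Top.apx r N (lam p x))).reverse ++
        w.map (fun x => H963Top.apx r N (lam p x)) = v.reverse ++ v then 1 else 0 := by
  have h1 : ncol r ((u.map (lam p')).reverse ++ w.map (lam p)) = n := by
    obtain ⟨i, hi, ⟨x, hx, hxi⟩, ⟨y, hy, hyi⟩⟩ := hl
    apply ncol_eq
    · refine ⟨lam p' x, mem_word.2 (Or.inl ⟨x, hx, rfl⟩), lam p y, mem_word.2 (Or.inr ⟨y, hy, rfl⟩), ?_⟩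
      have := (C.hdiag i hi (hxi ▸ (hu x hx).1)).1
      unfold lam
      simp only [hxi, hyi]
      exact this.symm
    · rintro k ⟨a, ha, b, hb, rfl⟩
      rw [mem_word] at ha hb
      rcases ha with ⟨x, hx, rfl⟩ | ⟨x, hx, rfl⟩ <;> rcases hb with ⟨y, hy, rfl⟩ | ⟨y, hy, rfl⟩
      · exact (C.c11 (hu x hx).1 (hu y hy).1).le.trans
          ((C.hn0 _ _ (hu x hx).1 (hu y hy).1).trans C.hnn.le)
      · by_cases h : x.1 ≠ y.1 ∨ x.1 < ρ
        · exact (C.c10 (hu x hx).1 (hw y hy).1 h).le.trans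
            ((C.hn0 _ _ (hu x hx).1 (hw y hy).1).trans C.hnn.le)
        · push Not at h
          unfold lam
          simp only [← h.1]
          exact (C.hdiag x.1 h.2 (hu x hx).1).1.le
      · by_cases h : x.1 ≠ y.1 ∨ x.1 < ρ
        · exact (C.c01 (hw x hx).1 (hu y hy).1 h).le.trans
            ((C.hn0 _ _ (hw x hx).1 (hu y hy).1).trans C.hnn.le)
        · push Not at h
          unfold lam
          simp only [← h.1]
          exact (C.hdiag x.1 h.2 (hw x hx).1).2.le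
      · exact (C.hn0 _ _ (hw x hx).1 (hw y hy).1).trans C.hnn.le
  unfold phi
  rw [h1, hcode, C.map_apx hN hu]

end

end Pool.Agent.H963Top
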