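import Pool.Agent.H963Top.E

set_option autoImplicit false

namespace Pool.Agent.H963Top

open Cardinal Order Set

section

variable {Θ : Type} [LinearOrder Θ]

theorem repr_exists (θ0 : Θ) (b : List (Θ × Y) →₀ ZMod 3) (δ : Θ) :
    ∃ (P : List (ℕ × ℕ) →₀ ZMod 3) (p : Pt Θ) (m J : ℕ) (R : Finset Θ),
      ev P p = b ∧ (∀ α ∈ R, α < δ) ∧
      (∀ i < R.card, p.1 i = (R.sort (· ≤ ·)).getD i θ0) ∧
      (∀ i < m, δ ≤ p.1 (R.card + i)) ∧
      (∀ i j, i < j → j < m → p.1 (R.card + i) < p.1 (R.card + j)) ∧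
      (∀ i j, i < R.card + m → j < R.card + m → p.1 i = p.1 j → i = j) ∧
      (∀ i j, i < J → j < J → p.2 i = p.2 j → i = j) ∧
      (∀ u ∈ P.support, ∀ x ∈ u, x.1 < R.card + m ∧ x.2 < J) := by
  classical
  set ords : Finset Θ := b.support.biUnion (fun w => (w.map Prod.fst).toFinset) with hords
  set R := ords.filter (fun α => α < δ) with hR
  set N := ords.filter (fun α => δ ≤ α) with hN
  set l : List Θ := R.sort (· ≤ ·) ++ N.sort (· ≤ ·) with hl
  set lY : List Y := (b.support.biUnion (fun w => (w.map Prod.snd).toFinset)).toList with hlY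
  have hlen : l.length = R.card + N.card := by simp [hl]
  have hlenR : (R.sort (· ≤ ·)).length = R.card := by simp
  have hlenN : (N.sort (· ≤ ·)).length = N.card := by simp
  have hmem : ∀ α, α ∈ ords → α ∈ l := by
    intro α hα
    rw [hl, List.mem_append, Finset.mem_sort, Finset.mem_sort, hR, hN, Finset.mem_filter,
      Finset.mem_filter]
    rcases lt_or_ge α δ with h | h
    · exact Or.inl ⟨hα, h⟩
    · exact Or.inr ⟨hα, h⟩
  have hnd : l.Nodup := by
    rw [hl, List.nodup_append]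
    refine ⟨Finset.sort_nodup _ _, Finset.sort_nodup _ _, ?_⟩
    intro a ha b hb hab
    rw [Finset.mem_sort, hR, Finset.mem_filter] at ha
    rw [Finset.mem_sort, hN, Finset.mem_filter] at hb
    subst hab
    exact absurd ha.2 (not_lt.2 hb.2)
  have hndY : lY.Nodup := Finset.nodup_toList _
  let ind : Θ × Y → ℕ × ℕ := fun s => (l.idxOf s.1, lY.idxOf s.2)
  let p : Pt Θ := (fun i => l.getD i θ0, fun j => lY.getD j (fun _ => false))
  have hmO : ∀ w ∈ b.support, ∀ s ∈ w, s.1 ∈ l := by
    intro w hw s hs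
    apply hmem
    rw [hords, Finset.mem_biUnion]
    exact ⟨w, hw, by rw [List.mem_toFinset]; exact List.mem_map_of_mem hs⟩
  have hmY : ∀ w ∈ b.support, ∀ s ∈ w, s.2 ∈ lY := by
    intro w hw s hs
    rw [hlY, Finset.mem_toList, Finset.mem_biUnion]
    exact ⟨w, hw, by rw [List.mem_toFinset]; exact List.mem_map_of_mem hs⟩
  have hlamind : ∀ w ∈ b.support, ∀ s ∈ w, lam p (ind s) = s := by
    intro w hw s hs
    have h1 := List.idxOf_lt_length_of_mem (hmO w hw s hs)
    have h2 := List.idxOf_lt_length_of_mem (hmY w hw s hs)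
    refine Prod.ext ?_ ?_
    · show l.getD (l.idxOf s.1) θ0 = s.1
      rw [List.getD_eq_getElem _ _ h1]
      exact List.getElem_idxOf h1
    · show lY.getD (lY.idxOf s.2) _ = s.2
      rw [List.getD_eq_getElem _ _ h2]
      exact List.getElem_idxOf h2
  refine ⟨b.mapDomain (List.map ind), p, N.card, lY.length, R, ?_, ?_, ?_, ?_, ?_, ?_, ?_, ?_⟩
  · unfold ev
    rw [← Finsupp.mapDomain_comp]
    conv_rhs => rw [← Finsupp.mapDomain_id (v := b)]
    apply Finsupp.mapDomain_congr
    intro w hw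
    simp only [Function.comp, List.map_map, id]
    conv_rhs => rw [← List.map_id w]
    apply List.map_congr_left
    intro s hs
    exact hlamind w hw s hs
  · intro α hα
    exact (Finset.mem_filter.1 hα).2
  · intro i hi
    show l.getD i θ0 = _
    rw [hl, List.getD_append _ _ _ _ (by rw [hlenR]; exact hi)]
  · intro i hi
    show δ ≤ l.getD (R.card + i) θ0
    rw [hl, List.getD_append_right _ _ _ _ (by rw [hlenR]; omega), hlenR, Nat.add_sub_cancel_left,
      List.getD_eq_getElem _ _ (by rw [hlenN]; exact hi)]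
    have := List.getElem_mem (l := N.sort (· ≤ ·)) (n := i) (by rw [hlenN]; exact hi)
    rw [Finset.mem_sort] at this
    exact (Finset.mem_filter.1 this).2
  · intro i j hij hj
    show l.getD (R.card + i) θ0 < l.getD (R.card + j) θ0
    rw [hl, List.getD_append_right _ _ _ _ (by rw [hlenR]; omega),
      List.getD_append_right _ _ _ _ (by rw [hlenR]; omega), hlenR, Nat.add_sub_cancel_left,
      Nat.add_sub_cancel_left,
      List.getD_eq_getElem _ _ (by rw [hlenN]; omega),
      List.getD_eq_getElem _ _ (by rw [hlenN]; exact hj)]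
    have := (Finset.sortedLT_sort N).strictMono_get
    exact this (a := ⟨i, by rw [hlenN]; omega⟩) (b := ⟨j, by rw [hlenN]; exact hj⟩) hij
  · intro i j hi hj h
    have hi' : i < l.length := by rw [hlen]; exact hi
    have hj' : j < l.length := by rw [hlen]; exact hj
    have h' : l.getD i θ0 = l.getD j θ0 := h
    rw [List.getD_eq_getElem _ _ hi', List.getD_eq_getElem _ _ hj'] at h'
    exact (List.Nodup.getElem_inj_iff hnd).1 h'
  · intro i j hi hj h
    have h' : lY.getD i (fun _ => false) = lY.getD j (fun _ => false) := h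
    rw [List.getD_eq_getElem _ _ hi, List.getD_eq_getElem _ _ hj] at h'
    exact (List.Nodup.getElem_inj_iff hndY).1 h'
  · intro u hu x hx
    have h1 := Finsupp.mapDomain_support hu
    rw [Finset.mem_image] at h1
    obtain ⟨w, hw, rfl⟩ := h1
    rw [List.mem_map] at hx
    obtain ⟨s, hs, rfl⟩ := hx
    refine ⟨?_, ?_⟩
    · rw [← hlen]
      exact List.idxOf_lt_length_of_mem (hmO w hw s hs)
    · exact List.idxOf_lt_length_of_mem (hmY w hw s hs)

theorem core {st : Par → Θ} {r : Θ → ℕ → ℝ} (hG : GenR st r) (θ0 : Θ)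
    (hb : ∀ T : Set Θ, T.Countable → ∃ x, ∀ t ∈ T, t < x)
    (hcl : ∀ g : Finset Θ → Θ, ∃ δ, ∀ R : Finset Θ, (∀ α ∈ R, α < δ) → g R ≤ δ)
    (B : Set (List (Θ × Y) →₀ ZMod 3)) (hB : ∀ a ∈ B, ∀ b ∈ B, TT r a b = 0) :
    ∃ δ : Θ, ∀ b ∈ B, ∀ w ∈ b.support, ∀ s ∈ w, s.1 < δ := by
  classical
  -- the bound function
  let Pset : Finset Θ → (List (ℕ × ℕ) →₀ ZMod 3) → Set (Pt Θ) := fun R P =>
    {p | (∀ i < R.card, p.1 i = (R.sort (· ≤ ·)).getD i θ0) ∧ ev P p ∈ B}
  choose γ hγ using fun (R : Finset Θ) (P : List (ℕ × ℕ) →₀ ZMod 3) (m : ℕ) =>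
    find hG hb (Pset R P) R.card m
  have hg : ∀ R : Finset Θ, ∃ x, ∀ P m, γ R P m ≤ x := by
    intro R
    obtain ⟨x, hx⟩ := hb (Set.range (fun z : (List (ℕ × ℕ) →₀ ZMod 3) × ℕ => γ R z.1 z.2))
      (Set.countable_range _)
    exact ⟨x, fun P m => (hx _ ⟨(P, m), rfl⟩).le⟩
  choose g hg using hg
  obtain ⟨δ, hδ⟩ := hcl g
  refine ⟨δ, fun b hbB w0 hw0 s0 hs0 => ?_⟩
  by_contra hcon
  rw [not_lt] at hcon
  obtain ⟨P, p, m, J, R, hev, hRδ, hpR, hpm, hpmono, hinjO, hinjY, hsupp⟩ := repr_exists θ0 b δ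
  set ρ := R.card with hρ
  have hinj := hG.inj
  -- existence of a word with a new index
  have hpR' : ∀ i < ρ, p.1 i < δ := by
    intro i hi
    rw [hpR i hi, List.getD_eq_getElem _ _ (by rw [Finset.length_sort]; exact hi)]
    exact hRδ _ ((Finset.mem_sort _).1 (List.getElem_mem _))
  have hex0 : ∃ u ∈ P.support, ∃ x ∈ u, ρ ≤ x.1 := by
    have h1 : w0 ∈ (ev P p).support := by rw [hev]; exact hw0
    have h2 := Finsupp.mapDomain_support h1
    rw [Finset.mem_image] at h2
    obtain ⟨u, hu, rfl⟩ := h2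
    rw [List.mem_map] at hs0
    obtain ⟨x, hx, rfl⟩ := hs0
    refine ⟨u, hu, x, hx, ?_⟩
    by_contra h3
    exact absurd (hpR' x.1 (not_le.1 h3)) (not_lt.2 hcon)
  -- words with a new index, of maximal length
  set W := P.support.filter (fun u => ∃ x ∈ u, ρ ≤ x.1) with hW
  have hWne : W.Nonempty := by
    obtain ⟨u, hu, h⟩ := hex0
    exact ⟨u, Finset.mem_filter.2 ⟨hu, h⟩⟩
  obtain ⟨u0, hu0W, hu0max⟩ := Finset.exists_max_image W List.length hWne
  have hu0 : u0 ∈ P.support := (Finset.mem_filter.1 hu0W).1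
  have hu0' : ∃ x ∈ u0, ρ ≤ x.1 := (Finset.mem_filter.1 hu0W).2
  -- constants
  obtain ⟨n0, hn0⟩ : ∃ n0, ∀ i j, i < ρ + m → j < ρ + m → col r (p.1 i) (p.1 j) ≤ n0 := by
    refine ⟨(Finset.range (ρ+m) ×ˢ Finset.range (ρ+m)).sup (fun x => col r (p.1 x.1) (p.1 x.2)), ?_⟩
    intro i j hi hj
    exact Finset.le_sup (f := fun x : ℕ × ℕ => col r (p.1 x.1) (p.1 x.2))
      (b := (i, j)) (by simp [hi, hj])
  have hloc1 : ∀ x : ℕ × ℕ, ∃ L, x.1 < ρ + m → x.2 < ρ + m → x.1 ≠ x.2 → ∀ α' β',
      agr r L (p.1 x.1) α' → agr r L (p.1 x.2) β' →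
      col r α' β' = col r (p.1 x.1) (p.1 x.2) ∧ α' ≠ β' := by
    intro x
    by_cases h : x.1 < ρ + m ∧ x.2 < ρ + m ∧ x.1 ≠ x.2
    · obtain ⟨L, hL⟩ := col_loc hinj (α := p.1 x.1) (β := p.1 x.2)
        (fun h' => h.2.2 (hinjO _ _ h.1 h.2.1 h'))
      exact ⟨L, fun _ _ _ => hL⟩
    · exact ⟨0, fun h1 h2 h3 => absurd ⟨h1, h2, h3⟩ h⟩
  choose L1 hL1 using hloc1
  obtain ⟨L0, hL0⟩ : ∃ L0, ∀ i j, i < ρ + m → j < ρ + m → i ≠ j → ∀ α' β',
      agr r L0 (p.1 i) α' → agr r L0 (p.1 j) β' →
      col r α' β' = col r (p.1 i) (p.1 j) ∧ α' ≠ β' := by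
    refine ⟨(Finset.range (ρ+m) ×ˢ Finset.range (ρ+m)).sup L1, ?_⟩
    intro i j hi hj hij α' β' h1 h2
    have h3 : L1 (i, j) ≤ (Finset.range (ρ+m) ×ˢ Finset.range (ρ+m)).sup L1 :=
      Finset.le_sup (f := L1) (b := (i, j)) (by simp [hi, hj])
    exact hL1 (i, j) hi hj hij α' β' (h1.mono r h3) (h2.mono r h3)
  -- separation of labels
  have hlab1 : ∀ x : ℕ × ℕ, ∃ L, x.1 < J → x.2 < J → x.1 ≠ x.2 → ∃ t < L, p.2 x.1 t ≠ p.2 x.2 t := by
    intro x
    by_cases h : x.1 < J ∧ x.2 < J ∧ x.1 ≠ x.2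
    · have h1 : p.2 x.1 ≠ p.2 x.2 := fun h' => h.2.2 (hinjY _ _ h.1 h.2.1 h')
      obtain ⟨t, ht⟩ := Function.ne_iff.1 h1
      exact ⟨t+1, fun _ _ _ => ⟨t, by omega, ht⟩⟩
    · exact ⟨0, fun h1 h2 h3 => absurd ⟨h1, h2, h3⟩ h⟩
  choose L2 hL2 using hlab1
  obtain ⟨L3, hL3⟩ : ∃ L3, ∀ i j, i < J → j < J → i ≠ j → ∃ t < L3, p.2 i t ≠ p.2 j t := by
    refine ⟨(Finset.range J ×ˢ Finset.range J).sup L2, ?_⟩
    intro i j hi hj hij
    have h3 : L2 (i, j) ≤ (Finset.range J ×ˢ Finset.range J).sup L2 :=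
      Finset.le_sup (f := L2) (b := (i, j)) (by simp [hi, hj])
    obtain ⟨t, ht, h⟩ := hL2 (i, j) hi hj hij
    exact ⟨t, by omega, h⟩
  set N := L0 + L3 with hN
  -- injectivity of the approximation on letters and words
  let a : ℕ × ℕ → Alp := fun x => apx r N (lam p x)
  have hainj : ∀ x y : ℕ × ℕ, x.1 < ρ + m ∧ x.2 < J → y.1 < ρ + m ∧ y.2 < J → a x = a y → x = y := by
    intro x y hx hy h
    have h1 := apx_agr r h
    refine Prod.ext ?_ ?_
    · by_contra h2
      exact (hL0 x.1 y.1 hx.1 hy.1 h2 (p.1 y.1) (p.1 y.1)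
        (h1.1.mono r (by omega)) (agr_refl r _ _)).2 rfl
    · by_contra h2
      obtain ⟨t, ht, h3⟩ := hL3 x.2 y.2 hx.2 hy.2 h2
      exact h3 (h1.2 t (by omega))
  have hainjw : ∀ u w : List (ℕ × ℕ), (∀ x ∈ u, x.1 < ρ + m ∧ x.2 < J) →
      (∀ x ∈ w, x.1 < ρ + m ∧ x.2 < J) → u.map a = w.map a → u = w := by
    intro u
    induction u with
    | nil =>
      intro w _ _ h
      cases w with
      | nil => rfl
      | cons y w => simp at h
    | cons x u ih =>
      intro w hu hw h
      cases w with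
      | nil => simp at h
      | cons y w =>
        simp only [List.map_cons, List.cons.injEq] at h
        rw [hainj x y (hu x (by simp)) (hw y (by simp)) h.1,
          ih w (fun z hz => hu z (by simp [hz])) (fun z hz => hw z (by simp [hz])) h.2]
  -- the key: for every v, a representative
  have key : ∀ v : List Alp, ∃ b' ∈ B, TT r b' b = ∑ u ∈ P.support, ∑ w ∈ P.support,
      P u * P w * (if linked ρ u w then (if (u.map a).reverse ++ w.map a = v.reverse ++ v then 1 else 0)
        else phi r ((u.map (lam p)).reverse ++ w.map (lam p))) := by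
    intro v
    obtain ⟨n, hn, hcode⟩ := code_spec (N, v) n0
    set Lb := N + (Finset.range (n0+1)).sup (fun k => (code k).1) + 1 with hLb
    set F : Finset Ix := ((Finset.range (ρ+m) ×ˢ (Finset.range Lb ×ˢ Finset.range Lb)).image
      (fun x => (Sum.inl (x.1, x.2.1, x.2.2) : Ix))) ∪
      ((Finset.range J ×ˢ Finset.range Lb).image (fun x => (Sum.inr (x.1, x.2) : Ix))) with hF
    have hpP : p ∈ Pset R P := ⟨hpR, by rw [hev]; exact hbB⟩
    obtain ⟨p', hp', hagF, hdiag⟩ := hγ R P m p hpP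
      (fun i hi => ((hg R P m).trans (hδ R hRδ)).trans (hpm i hi)) hpmono n (by omega) F
    have hag : ∀ i < ρ + m, agr r Lb (p.1 i) (p'.1 i) := by
      intro i hi k hk t ht
      have := hagF (Sum.inl (i, k, t)) (by
        rw [hF]
        apply Finset.mem_union_left
        rw [Finset.mem_image]
        exact ⟨(i, k, t), by simp [hi, hk, ht], rfl⟩)
      exact this.symm
    have hlab : ∀ j < J, ∀ s < Lb, p.2 j s = p'.2 j s := by
      intro j hj s hs
      have := hagF (Sum.inr (j, s)) (by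
        rw [hF]
        apply Finset.mem_union_right
        rw [Finset.mem_image]
        exact ⟨(j, s), by simp [hj, hs], rfl⟩)
      simp only [Phi] at this
      rw [Bool.eq_iff_iff]
      exact this.symm
    have C : Ctx r p p' ρ m J Lb n n0 := {
      h1 := fun i hi => by rw [hp'.1 i hi, hpR i hi]
      hag := hag
      hlab := hlab
      hloc := fun i j hi hj hij α' β' h1 h2 =>
        (hL0 i j hi hj hij α' β' (h1.mono r (by omega)) (h2.mono r (by omega))).1
      hn0 := hn0
      hnn := hn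
      hdiag := fun i hi1 hi2 => by
        have := hdiag (i - ρ) (by omega)
        rw [← hρ, show ρ + (i - ρ) = i by omega] at this
        exact this
      hNb := fun k hk => by
        have : (code k).1 ≤ (Finset.range (n0+1)).sup (fun k => (code k).1) :=
          Finset.le_sup (f := fun k => (code k).1) (Finset.mem_range.2 (by omega))
        omega }
    refine ⟨ev P p', hp'.2, ?_⟩
    conv_lhs => rw [← hev]
    rw [TT_ev]
    simp only [Finsupp.sum]
    apply Finset.sum_congr rfl
    intro u hu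
    apply Finset.sum_congr rfl
    intro w hw
    by_cases hl : linked ρ u w
    · rw [if_pos hl, C.phi_linked (hsupp u hu) (hsupp w hw) hl hcode (by omega)]
    · rw [if_neg hl, C.phi_unlinked (hsupp u hu) (hsupp w hw) hl]
  obtain ⟨b1, hb1, h1⟩ := key (u0.map a)
  let z : Alp := ([], [])
  obtain ⟨b2, hb2, h2⟩ := key (u0.map a ++ [z])
  rw [hB b1 hb1 b hbB] at h1
  rw [hB b2 hb2 b hbB] at h2
  have h3 : (0 : ZMod 3) = ∑ u ∈ P.support, ∑ w ∈ P.support,
      P u * P w * (if linked ρ u w then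
        (if (u.map a).reverse ++ w.map a = (u0.map a).reverse ++ u0.map a then 1 else 0)
        else 0) := by
    have h4 := h1.symm.trans h2
    rw [← sub_eq_zero, ← Finset.sum_sub_distrib] at h4
    refine h4.symm.trans ?_
    apply Finset.sum_congr rfl
    intro u hu
    rw [← Finset.sum_sub_distrib]
    apply Finset.sum_congr rfl
    intro w hw
    by_cases hl : linked ρ u w
    · simp only [if_pos hl]
      have hneq : ¬ ((u.map a).reverse ++ w.map a =
          (u0.map a ++ [z]).reverse ++ (u0.map a ++ [z])) := by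
        intro h5
        have h6 := congrArg List.length h5
        simp only [List.length_append, List.length_reverse, List.length_map, List.length_cons,
          List.length_nil] at h6
        obtain ⟨i, hi, ⟨x, hx, hxi⟩, ⟨y, hy, hyi⟩⟩ := hl
        have h7 := hu0max u (Finset.mem_filter.2 ⟨hu, x, hx, by omega⟩)
        have h8 := hu0max w (Finset.mem_filter.2 ⟨hw, y, hy, by omega⟩)
        omega
      rw [if_neg hneq]
      ring
    · simp only [if_neg hl]
      ring
  have h5 : ∑ u ∈ P.support, ∑ w ∈ P.support,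
      P u * P w * (if linked ρ u w then
        (if (u.map a).reverse ++ w.map a = (u0.map a).reverse ++ u0.map a then (1 : ZMod 3) else 0)
        else 0) = P u0 * P u0 := by
    have h6 : ∀ u ∈ P.support, ∀ w ∈ P.support, ¬ (u = u0 ∧ w = u0) →
        P u * P w * (if linked ρ u w then
        (if (u.map a).reverse ++ w.map a = (u0.map a).reverse ++ u0.map a then (1 : ZMod 3) else 0)
        else 0) = 0 := by
      intro u hu w hw hne
      by_cases hl : linked ρ u w
      · rw [if_pos hl, if_neg ?_, mul_zero]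
        intro h7
        apply hne
        have hl' := hl
        obtain ⟨i, hi, ⟨x, hx, hxi⟩, ⟨y, hy, hyi⟩⟩ := hl'
        have h8 := hu0max u (Finset.mem_filter.2 ⟨hu, x, hx, by omega⟩)
        have h9 := hu0max w (Finset.mem_filter.2 ⟨hw, y, hy, by omega⟩)
        have h10 := congrArg List.length h7
        simp only [List.length_append, List.length_reverse, List.length_map] at h10
        have h11 := List.append_inj h7 (by simp; omega)
        have h12 : u.map a = u0.map a := by
          have := congrArg List.reverse h11.1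
          simpa using this
        exact ⟨hainjw u u0 (hsupp u hu) (hsupp u0 hu0) h12,
          hainjw w u0 (hsupp w hw) (hsupp u0 hu0) h11.2⟩
      · rw [if_neg hl, mul_zero]
    rw [Finset.sum_eq_single u0, Finset.sum_eq_single u0]
    · have hl : linked ρ u0 u0 := by
        obtain ⟨x, hx, hxρ⟩ := hu0'
        exact ⟨x.1, hxρ, ⟨x, hx, rfl⟩, ⟨x, hx, rfl⟩⟩
      rw [if_pos hl, if_pos rfl, mul_one]
    · intro w hw hne
      exact h6 u0 hu0 w hw (fun h => hne h.2)
    · intro h; exact absurd hu0 h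
    · intro u hu hne
      apply Finset.sum_eq_zero
      intro w hw
      exact h6 u hu w hw (fun h => hne h.1)
    · intro h; exact absurd hu0 h
  rw [h5] at h3
  have hne0 : P u0 ≠ 0 := Finsupp.mem_support_iff.1 hu0
  have : Fact (Nat.Prime 3) := ⟨by norm_num⟩
  exact hne0 (mul_self_eq_zero.1 h3.symm)

end

end Pool.Agent.H963Top
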