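import Mathlib

set_option autoImplicit false

namespace Pool.Agent.H963Top

open Filter Topology

/-- data for the group -/
structure Dat (V W Γ : Type) [AddCommGroup V] [AddCommGroup W] [Group Γ] [DistribMulAction Γ V]
    [DistribMulAction Γ W] where
  f : W →+ W →+ ZMod 3
  inv : ∀ (γ : Γ) (x y : W), f (γ • x) (γ • y) = f x y
  alt : ∀ x, f x x = 0

variable {V W Γ : Type} [AddCommGroup V] [AddCommGroup W] [Group Γ] [DistribMulAction Γ V]
    [DistribMulAction Γ W]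

theorem Dat.symm (D : Dat V W Γ) (x y : W) : D.f y x = - D.f x y := by
  have h := D.alt (x + y)
  simp only [map_add, AddMonoidHom.add_apply, D.alt] at h
  rw [zero_add, add_zero] at h
  exact eq_neg_of_add_eq_zero_left h

/-- the group -/
@[ext] structure GG (D : Dat V W Γ) where
  v : V
  x : W
  a : ZMod 3
  g : Γ

namespace GG

variable {D : Dat V W Γ}

instance : Mul (GG D) :=
  ⟨fun p q => ⟨p.v + p.g • q.v, p.x + p.g • q.x, p.a + q.a + D.f p.x (p.g • q.x), p.g * q.g⟩⟩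

instance : One (GG D) := ⟨⟨0, 0, 0, 1⟩⟩

instance : Inv (GG D) := ⟨fun p => ⟨-(p.g⁻¹ • p.v), -(p.g⁻¹ • p.x), -p.a, p.g⁻¹⟩⟩

@[simp] theorem mul_v (p q : GG D) : (p * q).v = p.v + p.g • q.v := rfl
@[simp] theorem mul_x (p q : GG D) : (p * q).x = p.x + p.g • q.x := rfl
@[simp] theorem mul_a (p q : GG D) : (p * q).a = p.a + q.a + D.f p.x (p.g • q.x) := rfl
@[simp] theorem mul_g (p q : GG D) : (p * q).g = p.g * q.g := rfl
@[simp] theorem one_v : (1 : GG D).v = 0 := rfl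
@[simp] theorem one_x : (1 : GG D).x = 0 := rfl
@[simp] theorem one_a : (1 : GG D).a = 0 := rfl
@[simp] theorem one_g : (1 : GG D).g = 1 := rfl
@[simp] theorem inv_v (p : GG D) : (p⁻¹).v = -(p.g⁻¹ • p.v) := rfl
@[simp] theorem inv_x (p : GG D) : (p⁻¹).x = -(p.g⁻¹ • p.x) := rfl
@[simp] theorem inv_a (p : GG D) : (p⁻¹).a = -p.a := rfl
@[simp] theorem inv_g (p : GG D) : (p⁻¹).g = p.g⁻¹ := rfl

instance : Group (GG D) := Group.ofLeftAxioms
  (by
    intro p q s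
    ext
    · simp [mul_smul, add_assoc]
    · simp [mul_smul, add_assoc]
    · simp only [mul_a, mul_x, mul_g, map_add, smul_add, mul_smul, AddMonoidHom.add_apply, D.inv]
      ring
    · simp [mul_assoc])
  (by
    intro p
    ext <;> simp)
  (by
    intro p
    ext
    · simp
    · simp
    · simp [D.alt]
    · simp)

/-- embedding of V -/
def iV (v : V) : GG D := ⟨v, 0, 0, 1⟩
def iW (x : W) : GG D := ⟨0, x, 0, 1⟩
def iZ (a : ZMod 3) : GG D := ⟨0, 0, a, 1⟩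
def iG (γ : Γ) : GG D := ⟨0, 0, 0, γ⟩

theorem iV_add (v w : V) : (iV (v + w) : GG D) = iV v * iV w := by
  ext <;> simp [iV]

theorem iV_zero : (iV 0 : GG D) = 1 := rfl

theorem iV_inj : Function.Injective (iV : V → GG D) := fun v w h => congrArg GG.v h

theorem iV_neg (v : V) : (iV (-v) : GG D) = (iV v)⁻¹ := by
  ext <;> simp [iV]

theorem conj_iG (γ : Γ) (p : GG D) (hp : p.g = 1) :
    iG γ * p * (iG γ)⁻¹ = ⟨γ • p.v, γ • p.x, p.a, 1⟩ := by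
  ext <;> simp [iG, hp]

theorem comm_N (p q : GG D) (hp : p.g = 1) (hq : q.g = 1) :
    p * q * p⁻¹ * q⁻¹ = iZ (2 * D.f p.x q.x) := by
  ext
  · simp [iZ, hp, hq]
  · simp [iZ, hp, hq]
  · simp only [mul_a, mul_x, mul_g, inv_x, inv_g, inv_a, hp, hq, iZ, one_smul, inv_one, mul_one,
      map_add, map_neg, AddMonoidHom.add_apply, D.alt, AddMonoidHom.neg_apply, D.symm p.x q.x]
    ring
  · simp [iZ, hp, hq]

theorem comm_W (p : GG D) (w : W) :
    (p * iW w * p⁻¹ * (iW w)⁻¹).g = 1 ∧ (p * iW w * p⁻¹ * (iW w)⁻¹).x = p.g • w - w ∧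
      (p * iW w * p⁻¹ * (iW w)⁻¹).v = 0 := by
  refine ⟨?_, ?_, ?_⟩
  · simp [iW]
  · simp [iW, smul_smul]; abel
  · simp [iW, smul_smul]

end GG

open GG

variable {D : Dat V W Γ}

theorem V_open [TopologicalSpace (GG D)] [IsTopologicalGroup (GG D)] [T2Space (GG D)]
    (H1 : ∀ X : Set W, (∀ x ∈ X, ∀ y ∈ X, D.f x y = 0) →
      ∃ L : List Γ, ∀ x : W, (∀ γ ∈ L, γ • x ∈ X) → x = 0)
    (H2 : ∃ w1 w2 : W, ∀ γ : Γ, γ • w1 = w1 → γ • w2 = w2 → γ = 1)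
    (H3 : ∃ ε : Γ, ∀ v : V, ε • v = -v) :
    ∀ᶠ p : GG D in 𝓝 1, p.x = 0 ∧ p.a = 0 ∧ p.g = 1 := by
  obtain ⟨w1, w2, hw⟩ := H2
  obtain ⟨ε, hε⟩ := H3
  have h20 : ¬ ((2 : ZMod 3) = 0) := by decide
  have hZ : ∀ a : ZMod 3, a ≠ 0 → (iZ a : GG D) ≠ 1 := fun a ha h => ha (congrArg GG.a h)
  have hU0 : ∀ᶠ p : GG D in 𝓝 1, p ≠ iZ 1 ∧ p ≠ iZ 2 := by
    have h1 : ∀ᶠ p : GG D in 𝓝 1, p ≠ iZ 1 := (isOpen_ne.mem_nhds (Ne.symm (hZ 1 (by decide))))
    have h2 : ∀ᶠ p : GG D in 𝓝 1, p ≠ iZ 2 := (isOpen_ne.mem_nhds (Ne.symm (hZ 2 (by decide))))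
    exact h1.and h2
  have hZ0 : ∀ b : ZMod 3, (iZ b : GG D) ≠ iZ 1 ∧ (iZ b : GG D) ≠ iZ 2 → b = 0 := by
    intro b hb
    fin_cases b
    · rfl
    · exact absurd rfl hb.1
    · exact absurd rfl hb.2
  -- Step A
  have hA : ∃ U ∈ 𝓝 (1 : GG D), ∀ p ∈ U, ∀ q ∈ U,
      p * q * p⁻¹ * q⁻¹ ≠ iZ 1 ∧ p * q * p⁻¹ * q⁻¹ ≠ iZ 2 := by
    have hc : Continuous (fun z : GG D × GG D => z.1 * z.2 * z.1⁻¹ * z.2⁻¹) := by fun_prop
    have h1 : Tendsto (fun z : GG D × GG D => z.1 * z.2 * z.1⁻¹ * z.2⁻¹) (𝓝 (1, 1)) (𝓝 1) := by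
      have := hc.tendsto (1, 1)
      simpa using this
    have h2 := h1.eventually hU0
    rw [nhds_prod_eq] at h2
    obtain ⟨U, hU, h3⟩ := Filter.mem_prod_same_iff.1 h2
    exact ⟨U, hU, fun p hp q hq => h3 (Set.mk_mem_prod hp hq)⟩
  obtain ⟨U1, hU1, hU1'⟩ := hA
  obtain ⟨L, hL⟩ := H1 {x | ∃ v a, (⟨v, x, a, 1⟩ : GG D) ∈ U1} (by
    rintro x ⟨v, a, h⟩ y ⟨v', a', h'⟩
    have h1 := hU1' _ h _ h'
    rw [comm_N _ _ rfl rfl] at h1
    have h2 := hZ0 _ h1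
    have : Fact (Nat.Prime 3) := ⟨by norm_num⟩
    exact (mul_eq_zero.1 h2).resolve_left h20)
  -- Step B
  have hconj : ∀ γ : Γ, Tendsto (fun p : GG D => iG γ * p * (iG γ)⁻¹) (𝓝 1) (𝓝 1) := by
    intro γ
    have hc : Continuous (fun p : GG D => iG γ * p * (iG γ)⁻¹) := by fun_prop
    have := hc.tendsto 1
    simpa using this
  have hB : ∀ᶠ p : GG D in 𝓝 1, p.g = 1 → p.x = 0 := by
    have h1 : ∀ᶠ p : GG D in 𝓝 1, ∀ γ ∈ L, iG γ * p * (iG γ)⁻¹ ∈ U1 := by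
      clear hL
      induction L with
      | nil => simp
      | cons γ L ih =>
        simp only [List.mem_cons, forall_eq_or_imp]
        exact ((hconj γ).eventually hU1).and ih
    filter_upwards [h1] with p hp hg
    apply hL
    intro γ hγ
    have := hp γ hγ
    rw [conj_iG γ p hg] at this
    exact ⟨_, _, this⟩
  -- Step C
  have hcW : ∀ w : W, ∀ᶠ p : GG D in 𝓝 1, p.g • w = w := by
    intro w
    have hc : Continuous (fun p : GG D => p * iW w * p⁻¹ * (iW w)⁻¹) := by fun_prop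
    have h1 : Tendsto (fun p : GG D => p * iW w * p⁻¹ * (iW w)⁻¹) (𝓝 1) (𝓝 1) := by
      have := hc.tendsto 1
      simpa using this
    filter_upwards [h1.eventually hB] with p hp
    obtain ⟨h2, h3, _⟩ := comm_W p w
    have := hp h2
    rw [h3] at this
    exact sub_eq_zero.1 this
  have hC : ∀ᶠ p : GG D in 𝓝 1, p.g = 1 := by
    filter_upwards [hcW w1, hcW w2] with p h1 h2
    exact hw _ h1 h2
  -- Step D
  have hD : ∀ᶠ p : GG D in 𝓝 1, p * (iG ε * p * (iG ε)⁻¹) ≠ iZ 1 ∧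
      p * (iG ε * p * (iG ε)⁻¹) ≠ iZ 2 := by
    have hc : Continuous (fun p : GG D => p * (iG ε * p * (iG ε)⁻¹)) := by fun_prop
    have h1 : Tendsto (fun p : GG D => p * (iG ε * p * (iG ε)⁻¹)) (𝓝 1) (𝓝 1) := by
      have := hc.tendsto 1
      simpa using this
    exact h1.eventually hU0
  filter_upwards [hB, hC, hD] with p h1 h2 h3
  have hx := h1 h2
  refine ⟨hx, ?_, h2⟩
  rw [conj_iG ε p h2] at h3
  have h4 : p * (⟨ε • p.v, ε • p.x, p.a, 1⟩ : GG D) = iZ (2 * p.a) := by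
    ext
    · simp [iZ, h2, hε]
    · simp [iZ, h2, hx]
    · simp [iZ, hx]; ring
    · simp [iZ, h2]
  rw [h4] at h3
  have := hZ0 _ h3
  have : Fact (Nat.Prime 3) := ⟨by norm_num⟩
  exact (mul_eq_zero.1 ‹_›).resolve_left h20

end Pool.Agent.H963Top
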