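import Mathlib
import Pool.Agent.H963Top.Top

set_option autoImplicit false

namespace Pool.Agent.H963Top

open Filter Topology GG

variable {V W Γ : Type} [AddCommGroup V] [AddCommGroup W] [Group Γ] [DistribMulAction Γ V]
    [DistribMulAction Γ W] {D : Dat V W Γ}

theorem nhds_of_bot {X : Type} (t : TopologicalSpace X) (ht : t = ⊥) (x : X) :
    @nhds X t x = pure x := by
  have : DiscreteTopology X := ⟨ht⟩
  exact congrFun (nhds_discrete X) x

theorem comap_fi {A B : Type} [AddCommGroup A] [AddCommGroup B] (f : A →+ B) (H : AddSubgroup B)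
    (hH : H.FiniteIndex) : (H.comap f).FiniteIndex := by
  constructor
  rw [AddSubgroup.index_comap]
  exact (AddSubgroup.isFiniteRelIndex_of_finiteIndex (K := f.range)).relIndex_ne_zero

/-- the two possibilities for the topology of `V` -/
def Dich (V Γ : Type) [AddCommGroup V] [Group Γ] [DistribMulAction Γ V] : Prop :=
  ∀ (t : TopologicalSpace V), @IsTopologicalAddGroup V t _ → @T2Space V t →
    (∀ γ : Γ, @Continuous V V t t (fun v => γ • v)) →
    @nhds V t 0 = pure 0 ∨ ∀ U : Set V, U ∈ @nhds V t 0 ↔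
      ∃ H : AddSubgroup V, H.FiniteIndex ∧ (H : Set V) ⊆ U

theorem nhds_one_cases [TopologicalSpace (GG D)] [IsTopologicalGroup (GG D)] [T2Space (GG D)]
    (hopen : ∀ᶠ p : GG D in 𝓝 1, p.x = 0 ∧ p.a = 0 ∧ p.g = 1) (hD : Dich V Γ) :
    𝓝 (1 : GG D) = pure 1 ∨ ∀ U : Set (GG D), U ∈ 𝓝 (1 : GG D) ↔
      ∃ H : AddSubgroup V, H.FiniteIndex ∧ ∀ v ∈ H, iV v ∈ U := by
  let tV : TopologicalSpace V := TopologicalSpace.induced (iV : V → GG D) inferInstance
  have hiV : Continuous (iV : V → GG D) := continuous_induced_dom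
  have hadd : IsTopologicalAddGroup V := by
    refine @IsTopologicalAddGroup.mk V tV _ ⟨?_⟩ ⟨?_⟩
    · refine continuous_induced_rng.2 ?_
      have : (iV ∘ fun p : V × V => p.1 + p.2 : V × V → GG D) =
          fun p => iV p.1 * iV p.2 := by
        funext p
        exact iV_add _ _
      rw [this]
      fun_prop
    · refine continuous_induced_rng.2 ?_
      have : (iV ∘ fun p : V => -p : V → GG D) = fun p => (iV p)⁻¹ := by
        funext p
        exact iV_neg _
      rw [this]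
      fun_prop
  have ht2 : T2Space V := T2Space.of_injective_continuous (iV_inj (D := D)) hiV
  have hγ : ∀ γ : Γ, Continuous (fun v : V => γ • v) := by
    intro γ
    refine continuous_induced_rng.2 ?_
    have : (iV ∘ fun v : V => γ • v : V → GG D) = fun v => iG γ * iV v * (iG γ)⁻¹ := by
      funext v
      rw [conj_iG _ _ rfl]
      ext <;> simp [iV]
    rw [this]
    fun_prop
  have hn : ∀ U : Set (GG D), U ∈ 𝓝 (1 : GG D) ↔ (iV : V → GG D) ⁻¹' U ∈ 𝓝 (0 : V) := by
    intro U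
    rw [nhds_induced]
    change _ ↔ _ ∈ comap iV (𝓝 (1 : GG D))
    refine ⟨fun h => preimage_mem_comap h, fun h => ?_⟩
    obtain ⟨U', hU', hs⟩ := mem_comap.1 h
    filter_upwards [hU', hopen] with p hp h1
    have : p = iV p.v := by
      ext
      · rfl
      · exact h1.1
      · exact h1.2.1
      · exact h1.2.2
    rw [this] at hp ⊢
    exact hs hp
  rcases hD tV hadd ht2 hγ with h | h
  · left
    ext U
    rw [hn, h]
    exact Iff.rfl
  · right
    intro U
    rw [hn, h]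
    exact Iff.rfl

/-- existence of a nondiscrete Hausdorff group topology -/
theorem exists_top (hsep : ∀ v : V, v ≠ 0 → ∃ H : AddSubgroup V, H.FiniteIndex ∧ v ∉ H)
    (hinf : Infinite V) :
    ∃ t : GroupTopology (GG D), @T2Space (GG D) t.toTopologicalSpace ∧ t.toTopologicalSpace ≠ ⊥ := by
  let B : GroupFilterBasis (GG D) :=
    { sets := {U | ∃ H : AddSubgroup V, H.FiniteIndex ∧ U = iV '' (H : Set V)}
      nonempty := ⟨_, ⊤, inferInstance, rfl⟩
      inter_sets := by
        rintro _ _ ⟨H, hH, rfl⟩ ⟨H', hH', rfl⟩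
        refine ⟨_, ⟨H ⊓ H', inferInstance, rfl⟩, ?_⟩
        rintro _ ⟨v, hv, rfl⟩
        exact ⟨⟨v, hv.1, rfl⟩, ⟨v, hv.2, rfl⟩⟩
      one' := by
        rintro _ ⟨H, hH, rfl⟩
        exact ⟨0, H.zero_mem, rfl⟩
      mul' := by
        rintro _ ⟨H, hH, rfl⟩
        refine ⟨_, ⟨H, hH, rfl⟩, ?_⟩
        rintro _ ⟨_, ⟨v, hv, rfl⟩, _, ⟨w, hw, rfl⟩, rfl⟩
        exact ⟨v + w, H.add_mem hv hw, iV_add _ _⟩
      inv' := by
        rintro _ ⟨H, hH, rfl⟩
        refine ⟨_, ⟨H, hH, rfl⟩, ?_⟩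
        rintro _ ⟨v, hv, rfl⟩
        exact ⟨-v, H.neg_mem hv, iV_neg _⟩
      conj' := by
        rintro p _ ⟨H, hH, rfl⟩
        refine ⟨_, ⟨H.comap (DistribSMul.toAddMonoidHom V p.g), ?_, rfl⟩, ?_⟩
        · exact comap_fi _ _ hH
        rintro _ ⟨v, hv, rfl⟩
        refine ⟨p.g • v, hv, ?_⟩
        ext
        · simp [iV]
        · simp [iV]
        · simp [iV, D.alt]
        · simp [iV] }
  let t := B.topology
  have hG : @IsTopologicalGroup _ t _ := B.isTopologicalGroup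
  have hn := B.nhds_one_hasBasis
  refine ⟨⟨t, hG⟩, ?_, ?_⟩
  · change @T2Space _ t
    refine @IsTopologicalGroup.t2Space_of_one_sep _ t _ hG ?_
    intro p hp
    by_cases h : ∃ v, p = iV v
    · obtain ⟨v, rfl⟩ := h
      have hv : v ≠ 0 := by
        rintro rfl
        exact hp rfl
      obtain ⟨H, hH, hvH⟩ := hsep v hv
      refine ⟨_, B.mem_nhds_one ⟨H, hH, rfl⟩, ?_⟩
      rintro ⟨w, hw, h⟩
      rw [iV_inj h] at hw
      exact hvH hw
    · refine ⟨_, B.mem_nhds_one ⟨⊤, inferInstance, rfl⟩, ?_⟩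
      rintro ⟨w, hw, h'⟩
      exact h ⟨w, h'.symm⟩
  · intro hbot
    change t = ⊥ at hbot
    have h1 : ({1} : Set (GG D)) ∈ @nhds _ t 1 := by
      rw [nhds_of_bot t hbot]
      exact Filter.mem_pure.2 rfl
    obtain ⟨U, ⟨H, hH, rfl⟩, hU⟩ := hn.mem_iff.1 h1
    have hHbot : H = ⊥ := by
      rw [eq_bot_iff]
      intro v hv
      have := hU ⟨v, hv, rfl⟩
      have h3 : (iV v : GG D) = iV 0 := this
      exact iV_inj h3
    subst hHbot
    have := hH.index_ne_zero
    rw [AddSubgroup.index_bot] at this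
    exact this (Nat.card_eq_zero_of_infinite)

theorem two_top_final (D : Dat V W Γ)
    (H1 : ∀ X : Set W, (∀ x ∈ X, ∀ y ∈ X, D.f x y = 0) →
      ∃ L : List Γ, ∀ x : W, (∀ γ ∈ L, γ • x ∈ X) → x = 0)
    (H2 : ∃ w1 w2 : W, ∀ γ : Γ, γ • w1 = w1 → γ • w2 = w2 → γ = 1)
    (H3 : ∃ ε : Γ, ∀ v : V, ε • v = -v) (hD : Dich V Γ)
    (hsep : ∀ v : V, v ≠ 0 → ∃ H : AddSubgroup V, H.FiniteIndex ∧ v ∉ H)
    (hinf : Infinite V) :
    ¬ (∀ (G : Type) [Group G], Infinite G →
      (∃ t : GroupTopology G, @T2Space G t.toTopologicalSpace ∧ t.toTopologicalSpace ≠ ⊥) →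
      ∀ k : ℕ, ∃ τ : Fin (k + 1) → GroupTopology G,
        (∀ i, @T2Space G (τ i).toTopologicalSpace) ∧
        ∀ i : Fin k, τ i.succ ⋖ τ i.castSucc) := by
  intro h
  have hI : Infinite (GG D) := Infinite.of_injective _ (iV_inj (D := D))
  obtain ⟨τ, hT, hτ⟩ := h (GG D) hI (exists_top hsep hinf) 2
  have h10 : τ 1 < τ 0 := (hτ 0).lt
  have h21 : τ 2 < τ 1 := (hτ 1).lt
  have hc : ∀ s : GroupTopology (GG D), @T2Space _ s.toTopologicalSpace →
      (∃ s', s' < s) → ∀ U : Set (GG D), U ∈ @nhds _ s.toTopologicalSpace (1 : GG D) ↔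
      ∃ H : AddSubgroup V, H.FiniteIndex ∧ ∀ v ∈ H, iV v ∈ U := by
    intro s hs ⟨s', hs'⟩
    let _ := s.toTopologicalSpace
    have := s.toIsTopologicalGroup
    rcases nhds_one_cases (D := D) (V_open H1 H2 H3) hD with h | h
    · exfalso
      have hsb : s = ⊥ := by
        apply GroupTopology.toTopologicalSpace_injective
        refine IsTopologicalGroup.ext s.toIsTopologicalGroup
          (⊥ : GroupTopology (GG D)).toIsTopologicalGroup ?_
        rw [nhds_of_bot _ GroupTopology.toTopologicalSpace_bot]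
        exact h
      rw [hsb] at hs'
      exact not_lt_bot hs'
    · exact h
  have h0 := hc (τ 0) (hT 0) ⟨_, h10⟩
  have h1 := hc (τ 1) (hT 1) ⟨_, h21⟩
  have : τ 1 = τ 0 := by
    apply GroupTopology.toTopologicalSpace_injective
    refine IsTopologicalGroup.ext (τ 1).toIsTopologicalGroup (τ 0).toIsTopologicalGroup ?_
    ext U
    rw [h0, h1]
  exact h10.ne this

end Pool.Agent.H963Top
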