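import Mathlib
import Pool.Agent.H963Top.Two

set_option autoImplicit false

namespace Pool.Agent.H963Top

open Filter Topology GG

/-- pairs -/
def Vec (M : Type) : Type := Fin 2 → M

instance instVecG (M : Type) [AddCommGroup M] : AddCommGroup (Vec M) :=
  inferInstanceAs (AddCommGroup (Fin 2 → M))

instance instVecM (K M : Type) [Ring K] [AddCommGroup M] [Module K M] :
    Module (Matrix (Fin 2) (Fin 2) K) (Vec M) :=
  @Matrix.Module.matrixModule (Fin 2) K M _ _ _ _ _

/-- constructor for pairs -/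
def mkV {M : Type} (a b : M) : Vec M := ![a, b]

@[simp] theorem mkV_zero {M : Type} (a b : M) : mkV a b 0 = a := rfl
@[simp] theorem mkV_one {M : Type} (a b : M) : mkV a b 1 = b := rfl

theorem Vec.ext' {M : Type} {x y : Vec M} (h0 : x 0 = y 0) (h1 : x 1 = y 1) : x = y := by
  funext i
  fin_cases i
  · exact h0
  · exact h1

section
variable {K M : Type} [Ring K] [AddCommGroup M] [Module K M]

theorem vec_smul (N : Matrix (Fin 2) (Fin 2) K) (v : Vec M) (i : Fin 2) :
    (N • v) i = N i 0 • v 0 + N i 1 • v 1 := by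
  rw [show (N • v) i = ∑ j, N i j • v j from rfl, Fin.sum_univ_two]

@[simp] theorem vec_add (v w : Vec M) (i : Fin 2) : (v + w) i = v i + w i := rfl
@[simp] theorem vec_sub (v w : Vec M) (i : Fin 2) : (v - w) i = v i - w i := rfl
@[simp] theorem vec_neg (v : Vec M) (i : Fin 2) : (-v) i = - v i := rfl
@[simp] theorem vec_zero (i : Fin 2) : (0 : Vec M) i = 0 := rfl

end

section
variable {K : Type} [Ring K] (T : K →+ K →+ ZMod 3)

/-- symplectic form -/
def fW : Vec K →+ Vec K →+ ZMod 3 :=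
  AddMonoidHom.mk' (fun x => AddMonoidHom.mk' (fun y => T (x 0) (y 1) - T (x 1) (y 0)) (by
    intro a b
    simp only [vec_add, map_add]
    abel)) (by
    intro a b
    ext y
    simp only [vec_add, map_add, AddMonoidHom.mk'_apply, AddMonoidHom.add_apply]
    abel)

theorem fW_apply (x y : Vec K) : fW T x y = T (x 0) (y 1) - T (x 1) (y 0) := rfl

/-- isometry group -/
def Gam : Subgroup (Matrix (Fin 2) (Fin 2) K)ˣ where
  carrier := {γ | ∀ x y : Vec K, fW T (γ • x) (γ • y) = fW T x y}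
  mul_mem' := by
    intro a b ha hb x y
    rw [mul_smul, mul_smul, ha, hb]
  one_mem' := by
    intro x y
    rw [one_smul, one_smul]
  inv_mem' := by
    intro a ha x y
    rw [← ha, smul_inv_smul, smul_inv_smul]

/-- hermitian elements -/
def Herm (t : K) : Prop := ∀ a b, T (t * a) b = T a (t * b)

variable {T}

/-- upper unipotent -/
def uU (t : K) (ht : Herm T t) : Gam T :=
  ⟨⟨!![1, t; 0, 1], !![1, -t; 0, 1],
    by ext i j; fin_cases i <;> fin_cases j <;> simp [Matrix.mul_apply, Fin.sum_univ_two],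
    by ext i j; fin_cases i <;> fin_cases j <;> simp [Matrix.mul_apply, Fin.sum_univ_two]⟩, by
    intro x y
    rw [fW_apply, fW_apply, Units.smul_def, Units.smul_def, vec_smul, vec_smul, vec_smul, vec_smul]
    simp only [Matrix.of_apply, Matrix.cons_val_zero, Matrix.cons_val_one, Matrix.cons_val',
      Matrix.cons_val_fin_one, smul_eq_mul, one_mul, zero_mul, zero_add, map_add,
      AddMonoidHom.add_apply]
    rw [ht (x 1) (y 1)]
    abel⟩

/-- lower unipotent -/
def lL (t : K) (ht : Herm T t) : Gam T :=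
  ⟨⟨!![1, 0; t, 1], !![1, 0; -t, 1],
    by ext i j; fin_cases i <;> fin_cases j <;> simp [Matrix.mul_apply, Fin.sum_univ_two],
    by ext i j; fin_cases i <;> fin_cases j <;> simp [Matrix.mul_apply, Fin.sum_univ_two]⟩, by
    intro x y
    rw [fW_apply, fW_apply, Units.smul_def, Units.smul_def, vec_smul, vec_smul, vec_smul, vec_smul]
    simp only [Matrix.of_apply, Matrix.cons_val_zero, Matrix.cons_val_one, Matrix.cons_val',
      Matrix.cons_val_fin_one, smul_eq_mul, one_mul, zero_mul, add_zero, map_add,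
      AddMonoidHom.add_apply]
    rw [ht (x 0) (y 0)]
    abel⟩

/-- minus one -/
def eE : Gam T :=
  ⟨-1, by
    intro x y
    rw [Units.smul_def, Units.smul_def]
    simp⟩

variable {M : Type} [AddCommGroup M] [Module K M]

theorem uU_zero (t : K) (ht : Herm T t) (v : Vec M) : (uU t ht • v) 0 = v 0 + t • v 1 := by
  rw [Subgroup.smul_def, Units.smul_def, vec_smul]
  simp [uU]

theorem uU_one (t : K) (ht : Herm T t) (v : Vec M) : (uU t ht • v) 1 = v 1 := by
  rw [Subgroup.smul_def, Units.smul_def, vec_smul]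
  simp [uU]

theorem lL_zero (t : K) (ht : Herm T t) (v : Vec M) : (lL t ht • v) 0 = v 0 := by
  rw [Subgroup.smul_def, Units.smul_def, vec_smul]
  simp [lL]

theorem lL_one (t : K) (ht : Herm T t) (v : Vec M) : (lL t ht • v) 1 = t • v 0 + v 1 := by
  rw [Subgroup.smul_def, Units.smul_def, vec_smul]
  simp [lL]

theorem eE_smul (v : Vec M) : (eE : Gam T) • v = -v := by
  rw [Subgroup.smul_def, Units.smul_def]
  simp [eE]

theorem herm_one : Herm T 1 := by
  intro a b
  simp

/-- The data. -/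
def datG (hs : ∀ a b, T a b = T b a) : Dat (Vec M) (Vec K) (Gam T) where
  f := fW T
  inv := fun γ x y => γ.2 x y
  alt := by
    intro x
    rw [fW_apply, hs, sub_self]

theorem H2G : ∃ w1 w2 : Vec K, ∀ γ : Gam T, γ • w1 = w1 → γ • w2 = w2 → γ = 1 := by
  refine ⟨mkV 1 0, mkV 0 1, fun γ h1 h2 => ?_⟩
  apply Subtype.ext
  apply Units.ext
  rw [Subgroup.smul_def, Units.smul_def] at h1 h2
  have a0 := congrFun h1 0
  have a1 := congrFun h1 1
  have b0 := congrFun h2 0
  have b1 := congrFun h2 1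
  rw [vec_smul] at a0 a1 b0 b1
  simp only [mkV_zero, mkV_one, smul_eq_mul, mul_one, mul_zero, add_zero, zero_add] at a0 a1 b0 b1
  ext i j
  fin_cases i <;> fin_cases j <;> simp [a0, a1, b0, b1]

theorem H1G
    (hC : ∀ B0 B1 : Set K, (∀ a ∈ B0, ∀ b ∈ B0, T a b = 0) → (∀ a ∈ B1, ∀ b ∈ B1, T a b = 0) →
      ∃ t : K, Herm T t ∧ (∀ a c, a ∈ B0 → a + t * c ∈ B0 → c = 0) ∧
        (∀ a c, a ∈ B1 → a + t * c ∈ B1 → c = 0))
    (X : Set (Vec K)) (hX : ∀ x ∈ X, ∀ y ∈ X, fW T x y = 0) :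
    ∃ L : List (Gam T), ∀ x : Vec K, (∀ γ ∈ L, γ • x ∈ X) → x = 0 := by
  let X' : Set (Vec K) := {x | x ∈ X ∧ uU 1 (herm_one (T := T)) • x ∈ X ∧
    lL 1 (herm_one (T := T)) • x ∈ X}
  obtain ⟨t, ht, h0, h1⟩ := hC {a | ∃ x ∈ X', x 0 = a} {a | ∃ x ∈ X', x 1 = a} (by
    rintro _ ⟨x, hx, rfl⟩ _ ⟨y, hy, rfl⟩
    have e1 := hX _ hx.1 _ hy.1
    have e2 := hX _ hx.1 _ hy.2.2
    rw [fW_apply] at e1 e2
    rw [lL_one, lL_zero, one_smul, map_add] at e2
    linear_combination e2 - e1) (by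
    rintro _ ⟨x, hx, rfl⟩ _ ⟨y, hy, rfl⟩
    have e1 := hX _ hx.1 _ hy.1
    have e2 := hX _ hx.1 _ hy.2.1
    rw [fW_apply] at e1 e2
    rw [uU_one, uU_zero, one_smul, map_add] at e2
    linear_combination e1 - e2)
  let g1 : Gam T := uU 1 (herm_one (T := T))
  let g2 : Gam T := lL 1 (herm_one (T := T))
  refine ⟨[1, g1, g2, uU t ht, g1 * uU t ht, g2 * uU t ht, lL t ht, g1 * lL t ht, g2 * lL t ht],
    fun x hx => ?_⟩
  simp only [List.mem_cons, List.not_mem_nil, or_false, forall_eq_or_imp, forall_eq, mul_smul,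
    one_smul] at hx
  obtain ⟨x1, x2, x3, y1, y2, y3, z1, z2, z3⟩ := hx
  apply Vec.ext'
  · have := h1 (x 1) (x 0) ⟨x, ⟨x1, x2, x3⟩, rfl⟩ ⟨lL t ht • x, ⟨z1, z2, z3⟩, by
      rw [lL_one, smul_eq_mul, add_comm]⟩
    exact this
  · have := h0 (x 0) (x 1) ⟨x, ⟨x1, x2, x3⟩, rfl⟩ ⟨uU t ht • x, ⟨y1, y2, y3⟩, by
      rw [uU_zero, smul_eq_mul]⟩
    exact this

/-- Continuity of all endomorphisms. -/
theorem end_cont (hV : ∀ e : M →+ M, ∃ t : K, Herm T t ∧ ∀ v, t • v = e v)
    (τ : TopologicalSpace (Vec M)) [IsTopologicalAddGroup (Vec M)]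
    (hγ : ∀ γ : Gam T, Continuous (fun v : Vec M => γ • v)) (e : Vec M →+ Vec M) :
    Continuous e := by
  have hu : ∀ A : M →+ M, Continuous (fun v : Vec M => mkV (A (v 1)) 0) := by
    intro A
    obtain ⟨t, ht, htA⟩ := hV A
    have : (fun v : Vec M => mkV (A (v 1)) 0) = fun v => uU t ht • v - v := by
      funext v
      apply Vec.ext'
      · rw [vec_sub, uU_zero, htA]; simp
      · rw [vec_sub, uU_one]; simp
    rw [this]
    exact (hγ _).sub continuous_id
  have hl : ∀ A : M →+ M, Continuous (fun v : Vec M => mkV 0 (A (v 0))) := by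
    intro A
    obtain ⟨t, ht, htA⟩ := hV A
    have : (fun v : Vec M => mkV 0 (A (v 0))) = fun v => lL t ht • v - v := by
      funext v
      apply Vec.ext'
      · rw [vec_sub, lL_zero]; simp
      · rw [vec_sub, lL_one, htA]; simp
    rw [this]
    exact (hγ _).sub continuous_id
  have h00 : ∀ A : M →+ M, Continuous (fun v : Vec M => mkV (A (v 0)) 0) := by
    intro A
    exact (hu A).comp (hl (AddMonoidHom.id M))
  have h11 : ∀ A : M →+ M, Continuous (fun v : Vec M => mkV 0 (A (v 1))) := by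
    intro A
    exact (hl A).comp (hu (AddMonoidHom.id M))
  let i0 : M →+ Vec M := AddMonoidHom.mk' (fun a => mkV a 0) (by
    intro a b
    apply Vec.ext' <;> simp)
  let i1 : M →+ Vec M := AddMonoidHom.mk' (fun a => mkV 0 a) (by
    intro a b
    apply Vec.ext' <;> simp)
  let p0 : Vec M →+ M := AddMonoidHom.mk' (fun v => v 0) (by
    intro a b
    rfl)
  let p1 : Vec M →+ M := AddMonoidHom.mk' (fun v => v 1) (by
    intro a b
    rfl)
  have key : (e : Vec M → Vec M) = fun v =>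
      (mkV ((p0.comp (e.comp i0)) (v 0)) 0 + mkV ((p0.comp (e.comp i1)) (v 1)) 0) +
      (mkV 0 ((p1.comp (e.comp i0)) (v 0)) + mkV 0 ((p1.comp (e.comp i1)) (v 1))) := by
    funext v
    have hv : v = i0 (v 0) + i1 (v 1) := by
      apply Vec.ext'
      · change v 0 = v 0 + 0
        rw [add_zero]
      · change v 1 = 0 + v 1
        rw [zero_add]
    conv_lhs => rw [hv, map_add]
    apply Vec.ext'
    · change _ = (p0 (e (i0 (v 0))) + p0 (e (i1 (v 1)))) + (0 + 0)
      rw [add_zero, add_zero]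
      rfl
    · change _ = (0 + 0) + (p1 (e (i0 (v 0))) + p1 (e (i1 (v 1))))
      rw [add_zero, zero_add]
      rfl
  rw [key]
  exact ((h00 _).add (hu _)).add ((hl _).add (h11 _))

end

end Pool.Agent.H963Top
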