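import Mathlib
import Pool.Agent.H963Top.F
import Pool.Agent.H963Top.G

set_option autoImplicit false

namespace Pool.Agent.H963Top

open Cardinal

section
variable {Θ : Type} (r : Θ → ℕ → ℝ)

theorem TT_add_left (a a' b : List (Θ × Y) →₀ ZMod 3) :
    TT r (a + a') b = TT r a b + TT r a' b := by
  classical
  unfold TT
  rw [Finsupp.sum_add_index']
  · intro u; simp
  · intro u x y
    rw [← Finsupp.sum_add]
    apply Finsupp.sum_congr
    intro w _
    ring

theorem TT_add_right (a b b' : List (Θ × Y) →₀ ZMod 3) :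
    TT r a (b + b') = TT r a b + TT r a b' := by
  classical
  unfold TT
  rw [← Finsupp.sum_add]
  apply Finsupp.sum_congr
  intro u _
  rw [Finsupp.sum_add_index']
  · intro u; simp
  · intro u x y; ring

theorem TT_comm (a b : List (Θ × Y) →₀ ZMod 3) : TT r a b = TT r b a := by
  classical
  unfold TT
  rw [Finsupp.sum_comm]
  apply Finsupp.sum_congr
  intro u _
  apply Finsupp.sum_congr
  intro w _
  rw [← phi_reverse, List.reverse_append, List.reverse_reverse]
  ring

theorem TT_single (u w : List (Θ × Y)) (x y : ZMod 3) :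
    TT r (Finsupp.single u x) (Finsupp.single w y) = x * y * phi r (u.reverse ++ w) := by
  unfold TT
  rw [Finsupp.sum_single_index, Finsupp.sum_single_index]
  · simp
  · simp

/-- the ring -/
abbrev KK (Θ : Type) : Type := MonoidAlgebra (ZMod 3) (FreeMonoid (Θ × Y))

/-- the form -/
noncomputable def TK : KK Θ →+ KK Θ →+ ZMod 3 :=
  AddMonoidHom.mk' (fun a => AddMonoidHom.mk' (fun b => TT r a.coeff b.coeff) (by
    intro b b'
    exact TT_add_right r _ _ _)) (by
    intro a a'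
    ext b
    exact TT_add_left r _ _ _)

theorem TK_apply (a b : KK Θ) : TK r a b = TT r a.coeff b.coeff := rfl

theorem TK_comm (a b : KK Θ) : TK r a b = TK r b a := TT_comm r _ _

/-- letters -/
noncomputable def lt (s : Θ × Y) : KK Θ := MonoidAlgebra.single (FreeMonoid.of s) 1

theorem herm_lt (s : Θ × Y) : Herm (TK r) (lt s) := by
  intro a b
  induction a using MonoidAlgebra.induction_linear with
  | zero => simp
  | add f g hf hg => rw [mul_add, map_add, map_add, AddMonoidHom.add_apply,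
      AddMonoidHom.add_apply, hf, hg]
  | single u x =>
    induction b using MonoidAlgebra.induction_linear with
    | zero => simp
    | add f g hf hg => rw [mul_add, map_add, map_add, hf, hg]
    | single w y =>
      rw [lt, MonoidAlgebra.single_mul_single, MonoidAlgebra.single_mul_single, TK_apply, TK_apply]
      rw [MonoidAlgebra.coeff_single, MonoidAlgebra.coeff_single, MonoidAlgebra.coeff_single,
        MonoidAlgebra.coeff_single]
      have h1 := TT_single r (s :: u.toList) w.toList (1 * x) y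
      have h2 := TT_single r u.toList (s :: w.toList) x (1 * y)
      refine Eq.trans h1 (Eq.trans ?_ h2.symm)
      rw [List.reverse_cons, List.append_assoc, one_mul, one_mul]
      rfl

theorem coeff_lt_mul (s : Θ × Y) (c : KK Θ) (u : FreeMonoid (Θ × Y)) :
    (lt s * c).coeff (FreeMonoid.of s * u) = c.coeff u := by
  rw [lt, MonoidAlgebra.coeff_single_mul_eq_mul_coeff (m₂ := u), one_mul]
  intro m' _
  exact mul_right_inj _

end

theorem hC_of_core {Θ : Type} [LinearOrder Θ] [WellFoundedLT Θ] {st : Par → Θ} {r : Θ → ℕ → ℝ}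
    (hG : GenR st r) (θ0 : Θ)
    (hb : ∀ T : Set Θ, T.Countable → ∃ x, ∀ t ∈ T, t < x)
    (hcl : ∀ g : Finset Θ → Θ, ∃ δ, ∀ R : Finset Θ, (∀ α ∈ R, α < δ) → g R ≤ δ)
    (B0 B1 : Set (KK Θ)) (h0 : ∀ a ∈ B0, ∀ b ∈ B0, TK r a b = 0)
    (h1 : ∀ a ∈ B1, ∀ b ∈ B1, TK r a b = 0) :
      ∃ t : KK Θ, Herm (TK r) t ∧ (∀ a c, a ∈ B0 → a + t * c ∈ B0 → c = 0) ∧
        (∀ a c, a ∈ B1 → a + t * c ∈ B1 → c = 0) := by
  have key : ∀ B : Set (KK Θ), (∀ a ∈ B, ∀ b ∈ B, TK r a b = 0) → ∃ δ : Θ, ∀ δ', δ ≤ δ' →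
      ∀ y : Y, ∀ a c, a ∈ B → a + lt (δ', y) * c ∈ B → c = 0 := by
    intro B hB
    obtain ⟨δ, hδ⟩ := core hG θ0 hb hcl (MonoidAlgebra.coeff '' B) (by
      rintro _ ⟨a, ha, rfl⟩ _ ⟨b, hb, rfl⟩
      exact hB a ha b hb)
    refine ⟨δ, fun δ' hδ' y a c ha hac => ?_⟩
    by_contra hc
    have hc' : c.coeff ≠ 0 := fun h => hc (MonoidAlgebra.coeff_eq_zero.1 h)
    obtain ⟨u, hu⟩ := Finsupp.support_nonempty_iff.2 hc'
    have hu' : c.coeff u ≠ 0 := Finsupp.mem_support_iff.1 hu
    have e1 : ∀ b ∈ B, b.coeff (FreeMonoid.of (δ', y) * u) = 0 := by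
      intro b hb
      by_contra hne
      have := hδ b.coeff ⟨b, hb, rfl⟩ (FreeMonoid.of (δ', y) * u)
        (Finsupp.mem_support_iff.2 hne) (δ', y) (List.mem_cons_self)
      exact absurd this (not_lt.2 hδ')
    have e2 := e1 _ hac
    rw [MonoidAlgebra.coeff_add, Finsupp.add_apply, e1 _ ha, zero_add, coeff_lt_mul] at e2
    exact hu' e2
  obtain ⟨δ0, hδ0⟩ := key B0 h0
  obtain ⟨δ1, hδ1⟩ := key B1 h1
  refine ⟨lt (max δ0 δ1, fun _ => false), herm_lt r _, ?_, ?_⟩
  · exact hδ0 _ (le_max_left _ _) _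
  · exact hδ1 _ (le_max_right _ _) _

/-- the space -/
abbrev V0 : Type := ℕ →₀ ZMod 3

theorem exists_sigma : ∃ σ : Y → Module.End (ZMod 3) V0, Function.Surjective σ := by
  have h1 : #(Module.End (ZMod 3) V0) ≤ #Y := by
    have e : #(Module.End (ZMod 3) V0) = #(ℕ → V0) :=
      Cardinal.mk_congr (Finsupp.lift V0 (ZMod 3) ℕ).symm.toEquiv
    rw [e]
    have h2 : #V0 ≤ continuum := (Cardinal.mk_le_aleph0).trans Cardinal.aleph0_le_continuum
    have h3 : #(ℕ → V0) = #V0 ^ ℵ₀ := by simp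
    have h4 : #Y = continuum := by simp [Y]
    rw [h3, h4, ← Cardinal.continuum_power_aleph0]
    exact Cardinal.power_le_power_right h2
  obtain ⟨f⟩ := Cardinal.le_def _ _ |>.1 h1
  exact ⟨Function.invFun f, Function.invFun_surjective f.injective⟩

/-- representation -/
noncomputable def rho (Θ : Type) (σ : Y → Module.End (ZMod 3) V0) :
    KK Θ →+* Module.End (ZMod 3) V0 :=
  (MonoidAlgebra.lift (ZMod 3) (Module.End (ZMod 3) V0) (FreeMonoid (Θ × Y))
    (FreeMonoid.lift (fun s => σ s.2))).toRingHom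

theorem rho_lt {Θ : Type} (σ : Y → Module.End (ZMod 3) V0) (s : Θ × Y) :
    rho Θ σ (lt s) = σ s.2 := by
  change MonoidAlgebra.lift (ZMod 3) (Module.End (ZMod 3) V0) (FreeMonoid (Θ × Y))
    (FreeMonoid.lift (fun s => σ s.2)) (lt s) = σ s.2
  rw [lt, MonoidAlgebra.lift_single, FreeMonoid.lift_eval_of, one_smul]

end Pool.Agent.H963Top
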