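import Mathlib
import Pool.Agent.H963Top.Bog

set_option autoImplicit false

namespace Pool.Agent.H963Top

open Filter Topology

/-- ultrafilter limit of subgroups -/
theorem ultra_limit {V : Type} [AddCommGroup V] (Z H : ℕ → AddSubgroup V)
    (hZ : ∀ v, ∀ᶠ n in atTop, v ∈ Z n) (N : ℕ)
    (hN : ∀ n, ∀ v : Fin (N + 1) → V, (∀ i, v i ∈ Z n) → ∃ i j, i ≠ j ∧ v i - v j ∈ H n) :
    ∃ K : AddSubgroup V, K.FiniteIndex ∧ ∀ v ∈ K, ∃ n, v ∈ H n := by
  let 𝒰 : Ultrafilter ℕ := hyperfilter ℕ
  have hle : (𝒰 : Filter ℕ) ≤ atTop := by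
    rw [← Nat.cofinite_eq_atTop]
    exact hyperfilter_le_cofinite
  let K : AddSubgroup V :=
    { carrier := {v | ∀ᶠ n in (𝒰 : Filter ℕ), v ∈ H n}
      add_mem' := by
        intro a b ha hb
        filter_upwards [ha, hb] with n h1 h2
        exact (H n).add_mem h1 h2
      zero_mem' := Eventually.of_forall fun n => (H n).zero_mem
      neg_mem' := by
        intro a ha
        filter_upwards [ha] with n h1
        exact (H n).neg_mem h1 }
  refine ⟨K, ?_, fun v hv => Eventually.exists hv⟩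
  by_contra hcon
  rw [AddSubgroup.finiteIndex_iff_finite_quotient, not_finite_iff_infinite] at hcon
  let e : Fin (N + 1) → V ⧸ K := fun i => Infinite.natEmbedding (V ⧸ K) i
  have he : Function.Injective e := fun i j h => Fin.ext ((Infinite.natEmbedding (V ⧸ K)).injective h)
  let v : Fin (N + 1) → V := fun i => (e i).out
  have h1 : ∀ᶠ n in (𝒰 : Filter ℕ), ∀ i, v i ∈ Z n := eventually_all.2 fun i => hle (hZ (v i))
  have h2 : ∃ p : Fin (N + 1) × Fin (N + 1), p.1 ≠ p.2 ∧ ∀ᶠ n in (𝒰 : Filter ℕ), v p.1 - v p.2 ∈ H n := by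
    by_contra hc
    push Not at hc
    have h3 : ∀ᶠ n in (𝒰 : Filter ℕ), ∀ p : Fin (N + 1) × Fin (N + 1), p.1 ≠ p.2 →
        ¬ (v p.1 - v p.2 ∈ H n) := by
      refine eventually_all.2 fun p => ?_
      by_cases hp : p.1 = p.2
      · exact Eventually.of_forall fun n h => absurd hp h
      · have := hc p hp
        have h4 : ∀ᶠ n in (𝒰 : Filter ℕ), ¬ (v p.1 - v p.2 ∈ H n) :=
          Ultrafilter.eventually_not.2 (by simpa using this)
        filter_upwards [h4] with n hn _
        exact hn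
    obtain ⟨n, hn1, hn2⟩ := (h1.and h3).exists
    obtain ⟨i, j, hij, h⟩ := hN n v hn1
    exact hn2 (i, j) hij h
  obtain ⟨⟨i, j⟩, hij, h⟩ := h2
  apply hij
  apply he
  have h5 : v i - v j ∈ K := h
  have h6 : (QuotientAddGroup.mk (v i) : V ⧸ K) = QuotientAddGroup.mk (v j) := by
    rw [QuotientAddGroup.eq_iff_sub_mem]
    exact h5
  rwa [QuotientAddGroup.out_eq', QuotientAddGroup.out_eq'] at h6

theorem syndetic_case {V : Type} [AddCommGroup V] (h3 : ∀ v : V, 3 • v = 0) (Z : ℕ → AddSubgroup V)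
    (hZ : ∀ v, ∀ᶠ n in atTop, v ∈ Z n) (hfin : ∀ n, Finite (Z n)) (A : Set V) (F : Finset V)
    (hF : ∀ v, ∃ f ∈ F, ∃ a ∈ A, v = f + a) :
    ∃ K : AddSubgroup V, K.FiniteIndex ∧ ∀ v ∈ K, ∃ a ∈ A, ∃ b ∈ A, ∃ c ∈ A, ∃ d ∈ A,
      v = a - b + (c - d) := by
  classical
  choose g hg a ha hga using hF
  have key : ∀ n, ∃ H : AddSubgroup V, (∀ v ∈ H, ∃ a ∈ A, ∃ b ∈ A, ∃ c ∈ A, ∃ d ∈ A,
      v = a - b + (c - d)) ∧ ∀ v : Fin (3 ^ (2 * F.card ^ 2) + 1) → V, (∀ i, v i ∈ Z n) →
      ∃ i j, i ≠ j ∧ v i - v j ∈ H := by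
    intro n
    have := hfin n
    have : Fintype (Z n) := Fintype.ofFinite _
    have h1 : ∃ f ∈ F, Fintype.card (Z n) ≤ F.card *
        ((Finset.univ : Finset (Z n)).filter (fun z => g z.1 = f)).card := by
      by_contra hcon
      push Not at hcon
      have hne : F.Nonempty := ⟨g 0, hg 0⟩
      have h2 := Finset.sum_lt_sum_of_nonempty hne hcon
      rw [Finset.sum_const, smul_eq_mul, ← Finset.mul_sum] at h2
      have h4 := Finset.card_eq_sum_card_fiberwise (s := (Finset.univ : Finset (Z n))) (t := F)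
        (f := fun z => g z.1) (fun z _ => hg z.1)
      rw [← h4, Finset.card_univ] at h2
      exact lt_irrefl _ h2
    obtain ⟨f, hf, hc⟩ := h1
    obtain ⟨H, hH1, hH2⟩ := bogo (Z := Z n) (fun z => Subtype.ext (h3 z.1)) _ _ hc
    refine ⟨H.map (Z n).subtype, ?_, ?_⟩
    · rintro _ ⟨z, hz, rfl⟩
      obtain ⟨x, hx, y, hy, u, hu, w, hw, rfl⟩ := hH1 z hz
      have hx' := (Finset.mem_filter.1 hx).2
      have hy' := (Finset.mem_filter.1 hy).2
      have hu' := (Finset.mem_filter.1 hu).2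
      have hw' := (Finset.mem_filter.1 hw).2
      refine ⟨a x, ha _, a y, ha _, a u, ha _, a w, ha _, ?_⟩
      have e1 := hga x.1
      have e2 := hga y.1
      have e3 := hga u.1
      have e4 := hga w.1
      rw [hx'] at e1
      rw [hy'] at e2
      rw [hu'] at e3
      rw [hw'] at e4
      change (x.1 - y.1 + (u.1 - w.1) : V) = _
      conv_lhs => rw [e1, e2, e3, e4]
      abel
    · intro v hv
      obtain ⟨i, j, hij, h⟩ := hH2 (fun i => ⟨v i, hv i⟩)
      exact ⟨i, j, hij, ⟨_, h, rfl⟩⟩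
  choose H hH1 hH2 using key
  obtain ⟨K, hK1, hK2⟩ := ultra_limit Z H hZ _ hH2
  refine ⟨K, hK1, fun v hv => ?_⟩
  obtain ⟨n, hn⟩ := hK2 v hv
  exact hH1 n v hn

theorem nonsyndetic_case {V : Type} [AddCommGroup V] [Module (ZMod 3) V]
    (b : Module.Basis ℕ (ZMod 3) V) (A : Set V) (hsym : ∀ a ∈ A, -a ∈ A)
    (hA : ∀ F : Finset V, ∃ v, ∀ f ∈ F, ∀ a ∈ A, v ≠ f + a) :
    ∃ e : V →ₗ[ZMod 3] V, ∀ v, e v ∈ A → v = 0 := by
  classical
  have h3 : ∀ v : V, (3 : ℕ) • v = 0 := by
    intro v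
    have : ((3 : ZMod 3)) • v = 0 := by
      rw [show (3 : ZMod 3) = 0 from rfl, zero_smul]
    have h := Nat.cast_smul_eq_nsmul (ZMod 3) 3 v
    rw [← h]
    exact this
  have hg : ∀ s : Finset V, ∃ v, ∀ f ∈ Submodule.span (ZMod 3) (s : Set V), ∀ a ∈ A, v ≠ f + a := by
    intro s
    have : Module.Finite (ZMod 3) (Submodule.span (ZMod 3) (s : Set V)) :=
      Module.Finite.span_finset (ZMod 3) s
    have hf : Finite (Submodule.span (ZMod 3) (s : Set V)) := Module.finite_of_finite (ZMod 3)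
    have hf' : ((Submodule.span (ZMod 3) (s : Set V) : Submodule (ZMod 3) V) : Set V).Finite := hf
    obtain ⟨v, hv⟩ := hA hf'.toFinset
    exact ⟨v, fun f hf => hv f (hf'.mem_toFinset.2 hf)⟩
  choose g hg using hg
  let s : ℕ → Finset V := fun n => Nat.rec ∅ (fun _ t => insert (g t) t) n
  have hs : ∀ n, s (n + 1) = insert (g (s n)) (s n) := fun n => rfl
  let h : ℕ → V := fun n => g (s n)
  have hmem : ∀ i n, i < n → h i ∈ s n := by
    intro i n hin
    induction n with
    | zero => omega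
    | succ n ih =>
      rw [hs, Finset.mem_insert]
      rcases Nat.lt_succ_iff_lt_or_eq.1 hin with h' | h'
      · exact Or.inr (ih h')
      · rw [h']; exact Or.inl rfl
  refine ⟨b.constr (ZMod 3) h, fun v hv => ?_⟩
  by_contra hv0
  have hc : (b.repr v).support.Nonempty := by
    rw [Finsupp.support_nonempty_iff]
    intro h0
    exact hv0 ((LinearEquiv.map_eq_zero_iff b.repr).1 h0)
  set n := (b.repr v).support.max' hc with hn
  have hnmem : n ∈ (b.repr v).support := Finset.max'_mem _ _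
  rw [Module.Basis.constr_apply, Finsupp.sum, ← Finset.add_sum_erase _ _ hnmem] at hv
  set w := ∑ i ∈ (b.repr v).support.erase n, (b.repr v) i • h i with hw
  have hwm : w ∈ Submodule.span (ZMod 3) (SetLike.coe (s n) : Set V) := by
    rw [hw]
    refine Submodule.sum_mem _ fun i hi => ?_
    apply Submodule.smul_mem
    apply Submodule.subset_span
    have h1 := Finset.mem_erase.1 hi
    exact hmem i n (lt_of_le_of_ne (Finset.le_max' _ _ h1.2) h1.1)
  have hcn : (b.repr v) n ≠ 0 := Finsupp.mem_support_iff.1 hnmem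
  have hcases : (b.repr v) n = 1 ∨ (b.repr v) n = 2 := by
    revert hcn
    generalize (b.repr v) n = z
    revert z
    decide
  rcases hcases with h1 | h1
  · rw [h1, one_smul] at hv
    refine hg (s n) (-w) (Submodule.neg_mem _ hwm) _ hv ?_
    change h n = _
    abel
  · rw [h1] at hv
    refine hg (s n) w hwm _ (hsym _ hv) ?_
    change h n = _
    have h2 : (2 : ZMod 3) • h n = - h n := by
      rw [show (2 : ZMod 3) = -1 from rfl, neg_smul, one_smul]
    rw [h2]
    abel

theorem fi_nhds {V : Type} [AddCommGroup V] [Module (ZMod 3) V] [TopologicalSpace V] [T2Space V]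
    (hlin : ∀ e : V →+ V, Continuous e) (H : AddSubgroup V) (hH : H.FiniteIndex) :
    (H : Set V) ∈ 𝓝 (0 : V) := by
  let Hs : Submodule (ZMod 3) V := AddSubgroup.toZModSubmodule 3 H
  have hmem : ∀ v, v ∈ Hs ↔ v ∈ H := fun v => Iff.rfl
  have hfq : Finite (V ⧸ Hs) := by
    have := AddSubgroup.finiteIndex_iff_finite_quotient.1 hH
    exact this
  obtain ⟨σ, hσ⟩ := LinearMap.exists_rightInverse_of_surjective Hs.mkQ (Submodule.range_mkQ Hs)
  let e : V →ₗ[ZMod 3] V := σ.comp Hs.mkQ
  have hσi : Function.Injective σ := by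
    intro x y hxy
    have h1 := LinearMap.congr_fun hσ x
    have h2 := LinearMap.congr_fun hσ y
    simp only [LinearMap.comp_apply, LinearMap.id_apply] at h1 h2
    rw [← h1, ← h2, hxy]
  have hr : (Set.range e).Finite := by
    have : Set.range e ⊆ Set.range σ := by
      rintro _ ⟨v, rfl⟩
      exact ⟨Hs.mkQ v, rfl⟩
    exact (Set.finite_range σ).subset this
  have hcl : IsClosed (Set.range e \ {0}) := (hr.subset Set.sdiff_subset).isClosed
  have hc : Continuous e := hlin e.toAddMonoidHom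
  have hopen : IsOpen (e ⁻¹' (Set.range e \ {0})ᶜ) := hcl.isOpen_compl.preimage hc
  have h0 : (0 : V) ∈ e ⁻¹' (Set.range e \ {0})ᶜ := by
    intro h
    exact h.2 (map_zero e)
  filter_upwards [hopen.mem_nhds h0] with v hv
  have hev : e v = 0 := by
    by_contra hne
    exact hv ⟨⟨v, rfl⟩, hne⟩
  have : Hs.mkQ v = 0 := by
    apply hσi
    rw [map_zero]
    exact hev
  rw [Submodule.mkQ_apply, Submodule.Quotient.mk_eq_zero] at this
  exact this

/-- The dichotomy. -/
theorem V_dich {V : Type} [AddCommGroup V] [Module (ZMod 3) V] (b : Module.Basis ℕ (ZMod 3) V)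
    (t : TopologicalSpace V) [IsTopologicalAddGroup V] [T2Space V]
    (hlin : ∀ e : V →+ V, Continuous e) :
    𝓝 (0 : V) = pure 0 ∨ ∀ U : Set V, U ∈ 𝓝 (0 : V) ↔
      ∃ H : AddSubgroup V, H.FiniteIndex ∧ (H : Set V) ⊆ U := by
  have h3 : ∀ v : V, (3 : ℕ) • v = 0 := by
    intro v
    have : ((3 : ZMod 3)) • v = 0 := by
      rw [show (3 : ZMod 3) = 0 from rfl, zero_smul]
    have h := Nat.cast_smul_eq_nsmul (ZMod 3) 3 v
    rw [← h]
    exact this
  by_cases hsyn : ∀ A ∈ 𝓝 (0 : V), ∃ F : Finset V, ∀ v, ∃ f ∈ F, ∃ a ∈ A, v = f + a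
  · right
    intro U
    constructor
    · intro hU
      obtain ⟨A1, hA1, hA1'⟩ := exists_nhds_zero_half hU
      obtain ⟨A2, hA2, hA2'⟩ := exists_nhds_half_neg hA1
      obtain ⟨F, hF⟩ := hsyn A2 hA2
      let Z : ℕ → AddSubgroup V := fun n =>
        { carrier := {v | ∀ i, n ≤ i → b.repr v i = 0}
          add_mem' := by
            intro x y hx hy i hi
            rw [map_add, Finsupp.add_apply, hx i hi, hy i hi, add_zero]
          zero_mem' := by
            intro i _
            rw [map_zero, Finsupp.zero_apply]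
          neg_mem' := by
            intro x hx i hi
            rw [map_neg, Finsupp.neg_apply, hx i hi, neg_zero] }
      have hZ : ∀ v, ∀ᶠ n in atTop, v ∈ Z n := by
        intro v
        filter_upwards [eventually_ge_atTop ((b.repr v).support.sup id + 1)] with n hn i hi
        by_contra hne
        have h1 : i ∈ (b.repr v).support := Finsupp.mem_support_iff.2 hne
        have h2 : i ≤ (b.repr v).support.sup id := Finset.le_sup (f := id) h1
        omega
      have hfin : ∀ n, Finite (Z n) := by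
        intro n
        apply Finite.of_injective (fun (z : Z n) (i : Fin n) => b.repr z.1 i)
        intro x y hxy
        apply Subtype.ext
        apply b.repr.injective
        ext i
        by_cases hi : i < n
        · exact congrFun hxy ⟨i, hi⟩
        · rw [x.2 i (not_lt.1 hi), y.2 i (not_lt.1 hi)]
      obtain ⟨K, hK, hK'⟩ := syndetic_case h3 Z hZ hfin A2 F hF
      refine ⟨K, hK, fun v hv => ?_⟩
      obtain ⟨a, ha, b, hb, c, hc, d, hd, rfl⟩ := hK' v hv
      exact hA1' _ (hA2' _ ha _ hb) _ (hA2' _ hc _ hd)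
    · rintro ⟨H, hH, hHU⟩
      exact mem_of_superset (fi_nhds hlin H hH) hHU
  · left
    push Not at hsyn
    obtain ⟨A, hA, hA'⟩ := hsyn
    have hneg : Tendsto (fun v : V => -v) (𝓝 0) (𝓝 0) := by
      have := (continuous_neg (G := V)).tendsto 0
      rwa [neg_zero] at this
    obtain ⟨e, he⟩ := nonsyndetic_case b (A ∩ (fun v => -v) ⁻¹' A) (by
      rintro a ⟨h1, h2⟩
      refine ⟨h2, ?_⟩
      simpa using h1) (by
      intro F
      obtain ⟨v, hv⟩ := hA' F
      exact ⟨v, fun f hf a ha => hv f hf a ha.1⟩)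
    have h1 : A ∩ (fun v => -v) ⁻¹' A ∈ 𝓝 (0 : V) := inter_mem hA (hneg hA)
    have h2 : Tendsto e (𝓝 0) (𝓝 0) := by
      have := (hlin e.toAddMonoidHom).tendsto 0
      rwa [map_zero] at this
    have h4 : ({0} : Set V) ∈ 𝓝 (0 : V) := by
      filter_upwards [h2 h1] with v hv
      exact he v hv
    exact le_antisymm (le_pure_iff.2 h4) (pure_le_nhds 0)

end Pool.Agent.H963Top
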