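import Mathlib
import Pool.Agent.H963Top.H
import Pool.Agent.H963Top.VD

set_option autoImplicit false

namespace Pool.Agent.H963Top

open Filter Topology GG Cardinal

instance instVecZ (M : Type) [AddCommGroup M] [Module (ZMod 3) M] : Module (ZMod 3) (Vec M) :=
  inferInstanceAs (Module (ZMod 3) (Fin 2 → M))

theorem exists_basis : Nonempty (Module.Basis ℕ (ZMod 3) (Vec V0)) := by
  have b1 : Module.Basis (Σ _ : Fin 2, ℕ) (ZMod 3) (Fin 2 → V0) :=
    Pi.basis (fun _ : Fin 2 => (Finsupp.basisSingleOne : Module.Basis ℕ (ZMod 3) (ℕ →₀ ZMod 3)))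
  have hinf : Infinite (Σ _ : Fin 2, ℕ) :=
    Infinite.of_injective (fun n : ℕ => (⟨0, n⟩ : Σ _ : Fin 2, ℕ)) (by
      intro a b h
      simpa using h)
  obtain ⟨e⟩ := nonempty_equiv_of_countable (α := (Σ _ : Fin 2, ℕ)) (β := ℕ)
  exact ⟨b1.reindex e⟩

theorem V_sep (v : Vec V0) (hv : v ≠ 0) : ∃ H : AddSubgroup (Vec V0), H.FiniteIndex ∧ v ∉ H := by
  have h1 : ∃ i, v i ≠ 0 := by
    by_contra hcon
    push Not at hcon
    exact hv (funext hcon)
  obtain ⟨i, hi⟩ := h1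
  obtain ⟨n, hn⟩ : ∃ n, v i n ≠ 0 := by
    by_contra hcon
    push Not at hcon
    exact hi (Finsupp.ext hcon)
  let φ : Vec V0 →+ ZMod 3 := AddMonoidHom.mk' (fun w => w i n) (by
    intro a b
    rfl)
  refine ⟨φ.ker, ?_, fun h => hn h⟩
  have : φ.ker = (⊥ : AddSubgroup (ZMod 3)).comap φ := rfl
  rw [this]
  exact comap_fi φ ⊥ inferInstance

theorem V_inf : Infinite (Vec V0) := by
  apply Infinite.of_injective (fun n : ℕ => mkV (Finsupp.single n (1 : ZMod 3)) 0)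
  intro a b h
  have h1 := congrFun h 0
  exact Finsupp.single_left_injective (one_ne_zero) h1

theorem final : ¬ (∀ (G : Type) [Group G], Infinite G →
      (∃ t : GroupTopology G, @T2Space G t.toTopologicalSpace ∧ t.toTopologicalSpace ≠ ⊥) →
      ∀ k : ℕ, ∃ τ : Fin (k + 1) → GroupTopology G,
        (∀ i, @T2Space G (τ i).toTopologicalSpace) ∧
        ∀ i : Fin k, τ i.succ ⋖ τ i.castSucc) := by
  obtain ⟨Θ, _, _, ⟨θ0⟩, st, hst, hI, hb, hcl⟩ := exists_index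
  obtain ⟨r, hr1, hr2, hr3⟩ := exists_generic st hst hI
  have hG : GenR st r := ⟨hr1, hr2, hr3⟩
  obtain ⟨σ, hσ⟩ := exists_sigma
  let _ : Module (KK Θ) V0 := Module.compHom V0 (rho Θ σ)
  obtain ⟨b⟩ := exists_basis
  have hV : ∀ e : V0 →+ V0, ∃ t : KK Θ, Herm (TK r) t ∧ ∀ v, t • v = e v := by
    intro e
    obtain ⟨y, hy⟩ := hσ (e.toZModLinearMap 3)
    refine ⟨lt (θ0, y), herm_lt r _, fun v => ?_⟩
    change rho Θ σ (lt (θ0, y)) v = e v
    rw [rho_lt, hy]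
    rfl
  refine two_top_final (datG (M := V0) (TK_comm r)) (H1G (hC_of_core hG θ0 hb hcl)) H2G
    ⟨eE, eE_smul⟩ ?_ V_sep V_inf
  intro t hg ht hγ
  exact V_dich b t (end_cont hV t hγ)

end Pool.Agent.H963Top
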